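import Mathlib

/-!
Averaging, hitting-set and random-cleaning lemmas used for decision lists of equality queries.
-/

namespace Pool.Agent.P.MP_a54059_lc.EQ

open Finset

/-- Averaging. -/
theorem select_ratio {ι : Type*} (S : Finset ι) (a b : ι → ℝ) (lam : ℝ)
    (ha : ∀ i ∈ S, 0 ≤ a i) (hb : ∀ i ∈ S, 0 ≤ b i)
    (hs : ∑ i ∈ S, a i ≤ lam * ∑ i ∈ S, b i) (hp : 0 < ∑ i ∈ S, b i) :
    ∃ i ∈ S, 0 < b i ∧ a i ≤ lam * b i := by
  by_contra hcon
  push Not at hcon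
  have h1 : ∃ i ∈ S, 0 < b i := by
    by_contra h
    push Not at h
    have : ∑ i ∈ S, b i ≤ 0 := sum_nonpos h
    linarith
  obtain ⟨j, hj, hbj⟩ := h1
  have : ∑ i ∈ S, lam * b i < ∑ i ∈ S, a i := by
    apply sum_lt_sum
    · intro i hi
      rcases (hb i hi).eq_or_lt with h | h
      · rw [← h]; simpa using ha i hi
      · exact (hcon i hi h).le
    · exact ⟨j, hj, hcon j hj hbj⟩
  rw [← mul_sum] at this
  linarith

/-- Light cells carry little mass. -/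
theorem light_sum {ι : Type*} (S S' : Finset ι) (hS : S' ⊆ S) (a b : ι → ℝ) (K η a0 b0 : ℝ)
    (ha : ∀ i ∈ S, 0 ≤ a i) (hb : ∀ i ∈ S, 0 ≤ b i) (hη : 0 ≤ η) (ha0 : 0 ≤ a0) (hb0 : 0 ≤ b0)
    (hsa : ∑ i ∈ S, a i ≤ K * a0) (hsb : ∑ i ∈ S, b i ≤ K * b0)
    (hl : ∀ i ∈ S', a i ≤ η * a0 ∨ b i ≤ η * b0) :
    ∑ i ∈ S', a i * b i ≤ 2 * K * η * (a0 * b0) := by
  have h1 : ∑ i ∈ S', a i * b i ≤ ∑ i ∈ S', (η * a0 * b i + η * b0 * a i) := by
    apply sum_le_sum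
    intro i hi
    have hai := ha i (hS hi)
    have hbi := hb i (hS hi)
    rcases hl i hi with h | h
    · have := mul_le_mul_of_nonneg_right h hbi
      have : 0 ≤ η * b0 * a i := by positivity
      linarith
    · have := mul_le_mul_of_nonneg_left h hai
      have : 0 ≤ η * a0 * b i := by positivity
      linarith
  have h2 : ∑ i ∈ S', (η * a0 * b i + η * b0 * a i)
      ≤ ∑ i ∈ S, (η * a0 * b i + η * b0 * a i) := by
    apply sum_le_sum_of_subset_of_nonneg hS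
    intro i hi _
    have hai := ha i hi
    have hbi := hb i hi
    positivity
  have h5 : ∑ i ∈ S, (η * a0 * b i + η * b0 * a i) =
      η * a0 * ∑ i ∈ S, b i + η * b0 * ∑ i ∈ S, a i := by
    rw [sum_add_distrib, ← mul_sum, ← mul_sum]
  have h3 := mul_le_mul_of_nonneg_left hsb (mul_nonneg hη ha0)
  have h4 := mul_le_mul_of_nonneg_left hsa (mul_nonneg hη hb0)
  linarith

/-- Tilting: a heavy cell on which a functional is not much above average. -/
theorem tilt {ι : Type*} (S : Finset ι) (a b ψ : ι → ℝ) (K w a0 b0 lam : ℝ)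
    (ha : ∀ i ∈ S, 0 ≤ a i) (hb : ∀ i ∈ S, 0 ≤ b i) (hψ : ∀ i ∈ S, 0 ≤ ψ i)
    (hK : 0 < K) (hw : 0 < w) (ha0 : 0 < a0) (hb0 : 0 < b0) (hlam : 0 ≤ lam)
    (hsa : ∑ i ∈ S, a i ≤ K * a0) (hsb : ∑ i ∈ S, b i ≤ K * b0)
    (hW : w * (a0 * b0) ≤ ∑ i ∈ S, a i * b i)
    (hP : ∑ i ∈ S, ψ i ≤ lam * ∑ i ∈ S, a i * b i) :
    ∃ i ∈ S, w / (4 * K) * a0 ≤ a i ∧ w / (4 * K) * b0 ≤ b i ∧ ψ i ≤ 2 * lam * (a i * b i) := by
  classical
  set η := w / (4 * K) with hη
  have hη0 : 0 < η := by positivity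
  set Hv := S.filter (fun i => η * a0 ≤ a i ∧ η * b0 ≤ b i) with hHv
  set Lt := S.filter (fun i => ¬ (η * a0 ≤ a i ∧ η * b0 ≤ b i)) with hLt
  have hsplit : ∑ i ∈ Hv, a i * b i + ∑ i ∈ Lt, a i * b i = ∑ i ∈ S, a i * b i :=
    sum_filter_add_sum_filter_not S _ _
  have hl : ∑ i ∈ Lt, a i * b i ≤ 2 * K * η * (a0 * b0) := by
    apply light_sum S Lt (filter_subset _ _) a b K η a0 b0 ha hb hη0.le ha0.le hb0.le hsa hsb
    intro i hi
    have := (mem_filter.1 hi).2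
    rw [not_and_or, not_le, not_le] at this
    rcases this with h | h
    · exact Or.inl h.le
    · exact Or.inr h.le
  have he : 2 * K * η = w / 2 := by rw [hη]; field_simp; ring
  rw [he] at hl
  have hab : 0 < w * (a0 * b0) := by positivity
  have hH : ∑ i ∈ S, a i * b i ≤ 2 * ∑ i ∈ Hv, a i * b i := by linarith
  have hψH : ∑ i ∈ Hv, ψ i ≤ ∑ i ∈ S, ψ i :=
    sum_le_sum_of_subset_of_nonneg (filter_subset _ _) (fun i hi _ => hψ i hi)
  obtain ⟨i, hi, -, h2⟩ := select_ratio Hv ψ (fun i => a i * b i) (2 * lam)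
    (fun i hi => hψ i (mem_filter.1 hi).1)
    (fun i hi => mul_nonneg (ha i (mem_filter.1 hi).1) (hb i (mem_filter.1 hi).1))
    (by have := mul_le_mul_of_nonneg_left hH hlam; linarith) (by linarith)
  exact ⟨i, (mem_filter.1 hi).1, (mem_filter.1 hi).2.1, (mem_filter.1 hi).2.2, h2⟩

/-- One greedy step. -/
theorem greedy_step {ι C : Type*} [DecidableEq C] (Hs : Finset C) (S : Finset ι) (D : ι → Finset C)
    (g : ℕ) (hg : 0 < g) (hne : Hs.Nonempty) (hD : ∀ i ∈ S, D i ⊆ Hs)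
    (hc : ∀ i ∈ S, Hs.card ≤ g * (D i).card) :
    ∃ c ∈ Hs, ((S.filter (fun i => c ∉ D i)).card : ℝ) ≤ (1 - 1 / g) * S.card := by
  classical
  have hg' : (0 : ℝ) < g := by exact_mod_cast hg
  have h1 : ∑ c ∈ Hs, ((S.filter (fun i => c ∈ D i)).card : ℝ) = ∑ i ∈ S, ((D i).card : ℝ) := by
    simp only [card_filter, Nat.cast_sum]
    rw [sum_comm]
    apply sum_congr rfl
    intro i hi
    rw [← Nat.cast_sum, ← card_filter]
    congr 2
    ext c
    simp only [mem_filter]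
    exact ⟨fun h => h.2, fun h => ⟨hD i hi h, h⟩⟩
  have h2 : ∑ _c ∈ Hs, (1 / g * S.card : ℝ) ≤
      ∑ c ∈ Hs, ((S.filter (fun i => c ∈ D i)).card : ℝ) := by
    rw [h1, sum_const, nsmul_eq_mul]
    have : ∑ _i ∈ S, ((Hs.card : ℝ) / g) ≤ ∑ i ∈ S, ((D i).card : ℝ) := by
      apply sum_le_sum
      intro i hi
      rw [div_le_iff₀ hg']
      have := hc i hi
      rw [mul_comm] at this
      exact_mod_cast this
    rw [sum_const, nsmul_eq_mul] at this
    calc (Hs.card : ℝ) * (1 / g * S.card) = S.card * (Hs.card / g) := by ring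
      _ ≤ _ := this
  obtain ⟨c, hc1, hc2⟩ := exists_le_of_sum_le hne h2
  refine ⟨c, hc1, ?_⟩
  have h3 := card_filter_add_card_filter_not (s := S) (fun i => c ∈ D i)
  have h4 : ((S.filter (fun i => c ∈ D i)).card : ℝ) +
      ((S.filter (fun i => c ∉ D i)).card : ℝ) = S.card := by exact_mod_cast h3
  linarith

theorem greedy_many {ι C : Type*} [DecidableEq C] (Hs : Finset C) (S : Finset ι)
    (D : ι → Finset C)
    (g : ℕ) (hg : 0 < g) (hne : Hs.Nonempty) (hD : ∀ i ∈ S, D i ⊆ Hs)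
    (hc : ∀ i ∈ S, Hs.card ≤ g * (D i).card) (m : ℕ) :
    ∃ T ⊆ Hs, T.card ≤ m ∧
      ((S.filter (fun i => ∀ c ∈ T, c ∉ D i)).card : ℝ) ≤ (1 - 1 / g) ^ m * S.card := by
  classical
  have hg' : (1 : ℝ) ≤ g := by exact_mod_cast hg
  have hq : (0 : ℝ) ≤ 1 - 1 / g := by
    have : (1 : ℝ) / g ≤ 1 := by rw [div_le_one (by linarith)]; exact hg'
    linarith
  induction m with
  | zero => exact ⟨∅, empty_subset _, by simp, by simp⟩
  | succ m ih =>
    obtain ⟨T, hT, hTc, hTs⟩ := ih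
    obtain ⟨c, hc1, hc2⟩ := greedy_step Hs (S.filter (fun i => ∀ c ∈ T, c ∉ D i)) D g hg hne
      (fun i hi => hD i (mem_filter.1 hi).1) (fun i hi => hc i (mem_filter.1 hi).1)
    refine ⟨insert c T, insert_subset hc1 hT, (card_insert_le _ _).trans (by omega), ?_⟩
    have he : S.filter (fun i => ∀ c' ∈ insert c T, c' ∉ D i) =
        (S.filter (fun i => ∀ c ∈ T, c ∉ D i)).filter (fun i => c ∉ D i) := by
      ext i
      simp only [mem_filter, mem_insert, forall_eq_or_imp]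
      tauto
    rw [he]
    calc _ ≤ _ := hc2
      _ ≤ (1 - 1 / g) * ((1 - 1 / g) ^ m * S.card) := mul_le_mul_of_nonneg_left hTs hq
      _ = _ := by ring

/-- Greedy hitting set. -/
theorem hitting {ι C : Type*} [DecidableEq C] (Hs : Finset C) (S : Finset ι) (D : ι → Finset C)
    (g k : ℕ) (hg : 0 < g) (hS : S.card ≤ 2 ^ k) (hD : ∀ i ∈ S, D i ⊆ Hs)
    (hD0 : ∀ i ∈ S, (D i).Nonempty)
    (hc : ∀ i ∈ S, Hs.card ≤ g * (D i).card) :
    ∃ T ⊆ Hs, T.card ≤ g * (k + 1) ∧ ∀ i ∈ S, ∃ c ∈ T, c ∈ D i := by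
  classical
  rcases S.eq_empty_or_nonempty with h0 | ⟨i0, hi0⟩
  · exact ⟨∅, empty_subset _, by simp, by simp [h0]⟩
  have hne : Hs.Nonempty := (hD0 i0 hi0).mono (hD i0 hi0)
  obtain ⟨T, hT, hTc, hTs⟩ := greedy_many Hs S D g hg hne hD hc (g * (k + 1))
  refine ⟨T, hT, hTc, ?_⟩
  have hg' : (1 : ℝ) ≤ g := by exact_mod_cast hg
  have hq : (0 : ℝ) ≤ 1 - 1 / g := by
    have : (1 : ℝ) / g ≤ 1 := by rw [div_le_one (by linarith)]; exact hg'
    linarith
  have h1 : (1 - 1 / (g : ℝ)) ^ g ≤ 1 / 2 := by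
    have a1 : (1 - 1 / (g : ℝ)) ≤ Real.exp (-(1 / g)) := by
      have := Real.add_one_le_exp (-(1 / (g : ℝ)))
      linarith
    have a2 := pow_le_pow_left₀ hq a1 g
    rw [← Real.exp_nat_mul] at a2
    have a3 : (g : ℝ) * -(1 / g) = -1 := by field_simp
    rw [a3] at a2
    have a4 : Real.exp (-1) ≤ 1 / 2 := by
      rw [Real.exp_neg, ← one_div]
      apply one_div_le_one_div_of_le (by norm_num)
      have := Real.add_one_le_exp (1 : ℝ)
      linarith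
    linarith
  have h2 : (1 - 1 / (g : ℝ)) ^ (g * (k + 1)) * S.card < 1 := by
    rw [pow_mul]
    have b1 : ((1 - 1 / (g : ℝ)) ^ g) ^ (k + 1) ≤ (1 / 2) ^ (k + 1) :=
      pow_le_pow_left₀ (pow_nonneg hq _) h1 _
    have b2 : (S.card : ℝ) ≤ 2 ^ k := by exact_mod_cast hS
    calc _ ≤ (1 / 2 : ℝ) ^ (k + 1) * 2 ^ k :=
          mul_le_mul b1 b2 (Nat.cast_nonneg _) (by positivity)
      _ = 1 / 2 := by rw [pow_succ, one_div, inv_pow]; field_simp
      _ < 1 := by norm_num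
  have h3 : (S.filter (fun i => ∀ c ∈ T, c ∉ D i)).card = 0 := by
    have : ((S.filter (fun i => ∀ c ∈ T, c ∉ D i)).card : ℝ) < 1 := lt_of_le_of_lt hTs h2
    have : (S.filter (fun i => ∀ c ∈ T, c ∉ D i)).card < 1 := by exact_mod_cast this
    omega
  intro i hi
  by_contra hcon
  push Not at hcon
  have : i ∈ S.filter (fun i => ∀ c ∈ T, c ∉ D i) := mem_filter.2 ⟨hi, hcon⟩
  rw [card_eq_zero.1 h3] at this
  simp at this

end Pool.Agent.P.MP_a54059_lc.EQ
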