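import Pool.Agent.P.MP_a54059_lc.EQ.Cells

/-!
The two main cases of the search for the first collision.
-/

namespace Pool.Agent.P.MP_a54059_lc.EQ

open Finset

variable {X Y C : Type*} [Fintype C] [DecidableEq C]

/-- `c'` is a relevant earlier cell that is dense inside the cell `c`. -/
def Desc (hA : X → Finset C) (hB : Y → Finset C) (r : C → ℕ) (R : C → Prop) (lo : ℕ) (σ : ℝ)
    (A : Finset X) (B : Finset Y) (c c' : C) : Prop :=
  R c' ∧ lo ≤ r c' ∧ r c' < r c ∧ heavy hA hB σ (fa hA A c) (fa hB B c) c'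

open Classical in
/-- The cells of `x` below which `x` holds few related cells. -/
noncomputable def lowc (hA : X → Finset C) (D : C → C → Prop) (G : ℕ) (x : X) : Finset C :=
  (hA x).filter (fun c => ((hA x).filter (D c)).card < G)

omit [Fintype C] [DecidableEq C] in
theorem lowc_subset (hA : X → Finset C) (D : C → C → Prop) (G : ℕ) (x : X) :
    lowc hA D G x ⊆ hA x := by
  unfold lowc
  exact filter_subset _ _

open Classical in
theorem caseB (hA : X → Finset C) (hB : Y → Finset C) (r : C → ℕ) (R : C → Prop)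
    (lo mid hi G : ℕ) (hmid : mid ≤ hi)
    (A : Finset X) (B : Finset Y) (K w f σ τ : ℝ)
    (hA0 : A.Nonempty) (hB0 : B.Nonempty) (hK : 0 < K) (hw : 0 < w) (hf : 0 ≤ f)
    (hσ : 0 ≤ σ) (hτ : 0 < τ)
    (hKA : ∀ x ∈ A, ((hA x).card : ℝ) ≤ K) (hKB : ∀ y ∈ B, ((hB y).card : ℝ) ≤ K)
    (hW : w * (A.card * B.card) ≤ tot (lowc hA (Desc hA hB r R lo σ A B) G) hB
      (fun c => R c ∧ lo ≤ r c ∧ r c < mid) A B)
    (hW2 : τ * tot hA hB (fun c => R c ∧ lo ≤ r c ∧ r c < mid) A B ≤
      tot (lowc hA (Desc hA hB r R lo σ A B) G) hB (fun c => R c ∧ lo ≤ r c ∧ r c < mid) A B)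
    (hF : tot hA hB (fun c => r c < hi ∧ (r c < lo ∨ ¬ R c)) A B ≤ f * (A.card * B.card)) :
    ∃ c, lo ≤ r c ∧ r c < mid ∧ ∃ A' ⊆ A, ∃ B' ⊆ B, ∃ R' : C → Prop,
      (∀ x ∈ A', c ∈ hA x) ∧ (∀ y ∈ B', c ∈ hB y) ∧
      w / (4 * K) * A.card ≤ A'.card ∧ w / (4 * K) * B.card ≤ B'.card ∧
      (∀ x ∈ A', ((hA x).filter R').card < G) ∧
      tot hA hB (fun c' => r c' < r c ∧ (r c' < lo ∨ ¬ R' c')) A' B' ≤
        2 * (K * f / w + 2 * K * σ / τ) * (A'.card * B'.card) := by
  set D := Desc hA hB r R lo σ A B with hD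
  set hL := lowc hA D G with hhL
  set Pre : C → Prop := fun c => R c ∧ lo ≤ r c ∧ r c < mid with hPre
  set F : C → Prop := fun c => r c < hi ∧ (r c < lo ∨ ¬ R c) with hFd
  have hsub : ∀ c, fa hL A c ⊆ fa hA A c := by
    intro c x hx
    rw [mem_fa] at hx ⊢
    exact ⟨hx.1, lowc_subset hA D G x hx.2⟩
  have hKL : ∀ x ∈ A, ((hL x).card : ℝ) ≤ K := by
    intro x hx
    have : ((hL x).card : ℝ) ≤ (hA x).card := by
      exact_mod_cast card_le_card (lowc_subset hA D G x)
    exact this.trans (hKA x hx)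
  obtain ⟨c, hc, h1, h2, h3⟩ := tilt_cells hA hL hB Pre
    (fun c c' => r c' < r c ∧ (r c' < lo ∨ ¬ D c c')) A B K w (K * f / w + 2 * K * σ / τ)
    hA0 hB0 hK hw (by positivity) hKL hKB hW (by
      have s1 : ∀ c ∈ univ.filter Pre,
          tot hA hB (fun c' => r c' < r c ∧ (r c' < lo ∨ ¬ D c c')) (fa hL A c) (fa hB B c) ≤
          tot hA hB F (fa hL A c) (fa hB B c) +
            2 * K * σ * ((fa hA A c).card * (fa hB B c).card) := by
        intro c hc
        have hc' : Pre c := (mem_filter.1 hc).2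
        calc _ ≤ tot hA hB F (fa hL A c) (fa hB B c) +
              tot hA hB (fun c' => ¬ heavy hA hB σ (fa hA A c) (fa hB B c) c')
                (fa hL A c) (fa hB B c) := by
              apply tot_le_add
              intro c' hc2
              by_cases hh : heavy hA hB σ (fa hA A c) (fa hB B c) c'
              · left
                refine ⟨by have := hc'.2.2; have := hc2.1; omega, ?_⟩
                rcases hc2.2 with h | h
                · exact Or.inl h
                · by_contra hcon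
                  push Not at hcon
                  exact h ⟨hcon.2, hcon.1, hc2.1, hh⟩
              · exact Or.inr hh
          _ ≤ _ := by
              have a1 := tot_mono_left hA hB
                (fun c' => ¬ heavy hA hB σ (fa hA A c) (fa hB B c) c') (fa hB B c) (hsub c)
              have a2 := tot_not_heavy hA hB σ K (fa hA A c) (fa hB B c) hσ
                (fun x hx => hKA x (fa_subset _ _ _ hx)) (fun y hy => hKB y (fa_subset _ _ _ hy))
              linarith
      have s2 := sum_le_sum s1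
      rw [sum_add_distrib, ← mul_sum, ← tot_eq] at s2
      have s3 := sum_tot_le hA hL hB Pre F A B K hKB
      have s4 : K * tot hA hB F A B ≤ K * f / w * tot hL hB Pre A B :=
        calc _ ≤ K * (f * (A.card * B.card)) := mul_le_mul_of_nonneg_left hF hK.le
          _ = K * f / w * (w * (A.card * B.card)) := by field_simp
          _ ≤ _ := mul_le_mul_of_nonneg_left hW (by positivity)
      have s5 : 2 * K * σ * tot hA hB Pre A B ≤ 2 * K * σ / τ * tot hL hB Pre A B :=
        calc _ = 2 * K * σ / τ * (τ * tot hA hB Pre A B) := by field_simp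
          _ ≤ _ := mul_le_mul_of_nonneg_left hW2 (by positivity)
      linarith)
  refine ⟨c, hc.2.1, hc.2.2, fa hL A c, fa_subset _ _ _, fa hB B c, fa_subset _ _ _, D c,
    fun x hx => (mem_fa.1 (hsub c hx)).2, fun y hy => (mem_fa.1 hy).2, h1, h2, ?_, h3⟩
  intro x hx
  have := (mem_fa.1 hx).2
  rw [hhL] at this
  unfold lowc at this
  exact (mem_filter.1 this).2

open Classical in
theorem caseC (hA : X → Finset C) (hB : Y → Finset C) (r : C → ℕ) (R F : C → Prop)
    (lo mid G g k : ℕ) (hg : 0 < g) (hG : 0 < G)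
    (A : Finset X) (B : Finset Y) (K σ M1 M2 : ℝ)
    (hA0 : A.Nonempty) (hB0 : B.Nonempty) (hK : 1 ≤ K) (hσ : 0 < σ) (hσ1 : σ ≤ 1)
    (hM1 : 0 < M1) (hM2 : 0 < M2)
    (hkA : ∀ x ∈ A, (hA x).card ≤ 2 ^ k)
    (hKB : ∀ y ∈ B, ((hB y).card : ℝ) ≤ K)
    (hR : ∀ x ∈ A, ((hA x).filter R).card ≤ g * G)
    (hP : tot hA hB (fun c => R c ∧ lo ≤ r c ∧ r c < mid) A B ≤
      σ / (2 * K) * (A.card * B.card))
    (hW : tot (lowc hA (Desc hA hB r R lo σ A B) G) hB
      (fun c => R c ∧ lo ≤ r c ∧ r c < mid) A B ≤ M1 * (A.card * B.card))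
    (hF : tot hA hB F A B ≤ M2 * (A.card * B.card)) :
    ∃ A' ⊆ A, ∃ B' ⊆ B,
      (σ / (2 * K ^ 2)) ^ (g * (k + 1)) / 8 * (A.card * B.card) ≤ (A'.card * B'.card : ℝ) ∧
      tot hA hB (fun c => R c ∧ lo ≤ r c ∧ r c < mid) A' B' ≤ 16 * M1 * (A'.card * B'.card) ∧
      tot hA hB F A' B' ≤ 16 * M2 * (A'.card * B'.card) := by
  set D := Desc hA hB r R lo σ A B with hD
  set hL := lowc hA D G with hhL
  set Pre : C → Prop := fun c => R c ∧ lo ≤ r c ∧ r c < mid with hPre
  have hK0 : 0 < K := by linarith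
  have hT : ∀ x : X, ∃ T : Finset C, x ∈ A → T ⊆ hA x ∧ T.card ≤ g * (k + 1) ∧
      ∀ c ∈ hA x, c ∉ hL x → ∃ c' ∈ T, D c c' := by
    intro x
    by_cases hx : x ∈ A
    · obtain ⟨T, h1, h2, h3⟩ := hitting ((hA x).filter R) ((hA x).filter (fun c => c ∉ hL x))
        (fun c => (hA x).filter (D c)) g k hg
        ((card_le_card (filter_subset _ _)).trans (hkA x hx))
        (by
          intro c _ c' hc'
          exact mem_filter.2 ⟨(mem_filter.1 hc').1, (mem_filter.1 hc').2.1⟩)
        (by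
          intro c hc
          rw [← card_pos]
          have h1 := (mem_filter.1 hc).1
          have h2 := (mem_filter.1 hc).2
          rw [hhL] at h2
          unfold lowc at h2
          rw [mem_filter, not_and, not_lt] at h2
          exact lt_of_lt_of_le hG (h2 h1))
        (by
          intro c hc
          have h1 := (mem_filter.1 hc).1
          have h2 := (mem_filter.1 hc).2
          rw [hhL] at h2
          unfold lowc at h2
          rw [mem_filter, not_and, not_lt] at h2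
          exact (hR x hx).trans (Nat.mul_le_mul_left _ (h2 h1)))
      refine ⟨T, fun _ => ⟨h1.trans (filter_subset _ _), h2, ?_⟩⟩
      intro c hc hcl
      obtain ⟨c', a1, a2⟩ := h3 c (mem_filter.2 ⟨hc, hcl⟩)
      exact ⟨c', a1, (mem_filter.1 a2).2⟩
    · exact ⟨∅, fun h => absurd h hx⟩
  choose T hT using hT
  set N : Y → Finset C := fun y => univ.filter (fun c' => ∃ c ∈ hB y, Pre c ∧ D c c') with hN
  have hDc : ∀ y ∈ B, ∀ c ∈ hB y, σ * ((univ.filter (D c)).card : ℝ) ≤ K := by
    intro y hy c hc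
    have hpos : (0 : ℝ) < (fa hB B c).card := by
      exact_mod_cast card_pos.2 ⟨y, mem_fa.2 ⟨hy, hc⟩⟩
    have a1 := sum_fa_le hB (fa hB B c) (univ.filter (D c)) K
      (fun y hy => hKB y (fa_subset _ _ _ hy))
    have a2 : ∑ _c' ∈ univ.filter (D c), σ * ((fa hB B c).card : ℝ) ≤
        ∑ c' ∈ univ.filter (D c), ((fa hB (fa hB B c) c').card : ℝ) :=
      sum_le_sum fun c' hc' => (mem_filter.1 hc').2.2.2.2.2
    rw [sum_const, nsmul_eq_mul] at a2
    have : σ * ((univ.filter (D c)).card : ℝ) * (fa hB B c).card ≤ K * (fa hB B c).card := by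
      linarith
    exact le_of_mul_le_mul_right this hpos
  have hNc : ∀ y ∈ B, σ / (2 * K ^ 2) * ((N y).card : ℝ) ≤ 1 / 2 := by
    intro y hy
    have a1 : N y ⊆ (hB y).biUnion (fun c => univ.filter (D c)) := by
      intro c' hc'
      obtain ⟨c, b1, -, b3⟩ := (mem_filter.1 hc').2
      exact mem_biUnion.2 ⟨c, b1, mem_filter.2 ⟨mem_univ _, b3⟩⟩
    have a2 : ((N y).card : ℝ) ≤ ∑ c ∈ hB y, ((univ.filter (D c)).card : ℝ) := by
      exact_mod_cast (card_le_card a1).trans card_biUnion_le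
    have a3 : σ * ∑ c ∈ hB y, ((univ.filter (D c)).card : ℝ) ≤ ∑ _c ∈ hB y, K := by
      rw [mul_sum]
      exact sum_le_sum fun c hc => hDc y hy c hc
    rw [sum_const, nsmul_eq_mul] at a3
    have a4 := mul_le_mul_of_nonneg_right (hKB y hy) hK0.le
    have a5 := mul_le_mul_of_nonneg_left a2 hσ.le
    have a6 : σ * ((N y).card : ℝ) ≤ K ^ 2 := by nlinarith
    rw [div_mul_eq_mul_div, div_le_iff₀ (by positivity)]
    linarith
  have hNy : ∀ c' : C, σ * ((fa N B c').card : ℝ) ≤ K * (fa hB B c').card := by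
    intro c'
    have a1 : fa N B c' ⊆ (univ.filter (fun c => D c c')).biUnion (fun c => fa hB B c) := by
      intro y hy
      obtain ⟨b0, b1⟩ := mem_fa.1 hy
      obtain ⟨c, b2, -, b3⟩ := (mem_filter.1 b1).2
      exact mem_biUnion.2 ⟨c, mem_filter.2 ⟨mem_univ _, b3⟩, mem_fa.2 ⟨b0, b2⟩⟩
    have a2 : ((fa N B c').card : ℝ) ≤
        ∑ c ∈ univ.filter (fun c => D c c'), ((fa hB B c).card : ℝ) := by
      exact_mod_cast (card_le_card a1).trans card_biUnion_le
    have a3 : σ * ∑ c ∈ univ.filter (fun c => D c c'), ((fa hB B c).card : ℝ) ≤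
        ∑ c ∈ univ.filter (fun c => D c c'), ((fa hB (fa hB B c') c).card : ℝ) := by
      rw [mul_sum]
      apply sum_le_sum
      intro c hc
      have b1 := (mem_filter.1 hc).2.2.2.2.2
      have b2 : fa hB (fa hB B c') c = fa hB (fa hB B c) c' := by
        ext y
        simp only [mem_fa]
        tauto
      rw [b2]
      exact b1
    have a4 := sum_fa_le hB (fa hB B c') (univ.filter (fun c => D c c')) K
      (fun y hy => hKB y (fa_subset _ _ _ hy))
    have a5 := mul_le_mul_of_nonneg_left a2 hσ.le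
    linarith
  have hbad : ∑ x ∈ A, ∑ y ∈ B, (if Disjoint (T x) (N y) then (0 : ℝ) else 1) ≤
      (A.card * B.card : ℝ) / 2 := by
    have a1 : ∑ x ∈ A, ∑ y ∈ B, (if Disjoint (T x) (N y) then (0 : ℝ) else 1) ≤
        tot hA N Pre A B := by
      apply sum_le_sum
      intro x hx
      apply sum_le_sum
      intro y _
      split_ifs with h
      · exact cnt_nonneg _ _ _ _ _
      · rw [not_disjoint_iff] at h
        obtain ⟨c', b1, b2⟩ := h
        obtain ⟨c, -, b4, b5⟩ := (mem_filter.1 b2).2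
        have b6 : Pre c' := ⟨b5.1, b5.2.1, lt_trans b5.2.2.1 b4.2.2⟩
        exact one_le_cnt ((hT x hx).1 b1) b2 b6
    have a2 : σ * tot hA N Pre A B ≤ K * tot hA hB Pre A B := by
      rw [tot_eq, tot_eq, mul_sum, mul_sum]
      apply sum_le_sum
      intro c _
      have := mul_le_mul_of_nonneg_left (hNy c) (Nat.cast_nonneg (α := ℝ) (fa hA A c).card)
      linarith
    have a3 := mul_le_mul_of_nonneg_left hP hK0.le
    have a4 : K * (σ / (2 * K) * (A.card * B.card)) = σ * ((A.card * B.card : ℝ) / 2) := by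
      field_simp
    have a5 : σ * tot hA N Pre A B ≤ σ * ((A.card * B.card : ℝ) / 2) := by linarith
    exact a1.trans (le_of_mul_le_mul_left a5 hσ)
  obtain ⟨A', hA', B', hB', h1, h2, h3, h4⟩ := clean A B T N (g * (k + 1)) (σ / (2 * K ^ 2))
    M1 M2 (by positivity)
    (by rw [div_le_one (by positivity)]; nlinarith)
    hA0 hB0 (fun x hx => (hT x hx).2.1) hNc hbad
    (cnt hL hB Pre) (cnt hA hB F) (cnt_nonneg _ _ _) (cnt_nonneg _ _ _) hM1 hM2 hW hF
  refine ⟨A', hA', B', hB', h2, le_trans ?_ h3, h4⟩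
  apply sum_le_sum
  intro x hx
  apply sum_le_sum
  intro y hy
  apply cnt_mono
  intro c b1 b2 b3
  refine ⟨?_, b3⟩
  by_contra hcon
  obtain ⟨c', d1, d2⟩ := (hT x (hA' hx)).2.2 c b1 hcon
  exact disjoint_left.1 (h1 x hx y hy) d1 (mem_filter.2 ⟨mem_univ _, c, b2, b3, d2⟩)

end Pool.Agent.P.MP_a54059_lc.EQ
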