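import Pool.Agent.P.MP_a54059_lc.EQ.Clean

/-!
Counting collisions of sparse sets on rectangles.
-/

namespace Pool.Agent.P.MP_a54059_lc.EQ

open Finset

variable {X Y C : Type*} [Fintype C] [DecidableEq C]

/-- The points of `A` that hold the cell `c`. -/
def fa (h : X → Finset C) (A : Finset X) (c : C) : Finset X := A.filter (fun x => c ∈ h x)

open Classical in
/-- Number of common cells of `x` and `y` with property `Φ`. -/
noncomputable def cnt (hA : X → Finset C) (hB : Y → Finset C) (Φ : C → Prop) (x : X) (y : Y) :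
    ℝ := ∑ c, if c ∈ hA x ∧ c ∈ hB y ∧ Φ c then 1 else 0

/-- Total number of common cells with property `Φ` over a rectangle. -/
noncomputable def tot (hA : X → Finset C) (hB : Y → Finset C) (Φ : C → Prop) (A : Finset X)
    (B : Finset Y) : ℝ := ∑ x ∈ A, ∑ y ∈ B, cnt hA hB Φ x y

omit [Fintype C] in
theorem fa_subset (h : X → Finset C) (A : Finset X) (c : C) : fa h A c ⊆ A := filter_subset _ _

omit [Fintype C] in
theorem mem_fa {h : X → Finset C} {A : Finset X} {c : C} {x : X} :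
    x ∈ fa h A c ↔ x ∈ A ∧ c ∈ h x := mem_filter

theorem cnt_nonneg (hA : X → Finset C) (hB : Y → Finset C) (Φ : C → Prop) (x : X) (y : Y) :
    0 ≤ cnt hA hB Φ x y := by
  unfold cnt
  apply sum_nonneg
  intro c _
  split_ifs <;> norm_num

theorem tot_nonneg (hA : X → Finset C) (hB : Y → Finset C) (Φ : C → Prop) (A : Finset X)
    (B : Finset Y) : 0 ≤ tot hA hB Φ A B :=
  sum_nonneg fun x _ => sum_nonneg fun y _ => cnt_nonneg hA hB Φ x y

theorem cnt_le_card (hA : X → Finset C) (hB : Y → Finset C) (Φ : C → Prop) (x : X) (y : Y) :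
    cnt hA hB Φ x y ≤ (hB y).card := by
  unfold cnt
  calc _ ≤ ∑ c, (if c ∈ hB y then (1 : ℝ) else 0) := by
        apply sum_le_sum
        intro c _
        split_ifs with h1 h2
        · exact le_rfl
        · exact absurd h1.2.1 h2
        · norm_num
        · exact le_rfl
    _ = _ := by simp

theorem cnt_mono {hA hA' : X → Finset C} {hB : Y → Finset C} {Φ Ψ : C → Prop} {x : X} {y : Y}
    (h : ∀ c, c ∈ hA x → c ∈ hB y → Φ c → c ∈ hA' x ∧ Ψ c) :
    cnt hA hB Φ x y ≤ cnt hA' hB Ψ x y := by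
  unfold cnt
  apply sum_le_sum
  intro c _
  split_ifs with h1 h2
  · exact le_rfl
  · exact absurd ⟨(h c h1.1 h1.2.1 h1.2.2).1, h1.2.1, (h c h1.1 h1.2.1 h1.2.2).2⟩ h2
  · norm_num
  · exact le_rfl

theorem cnt_le_add (hA : X → Finset C) (hB : Y → Finset C) {Φ Ψ Θ : C → Prop} (x : X) (y : Y)
    (h : ∀ c, Φ c → Ψ c ∨ Θ c) :
    cnt hA hB Φ x y ≤ cnt hA hB Ψ x y + cnt hA hB Θ x y := by
  unfold cnt
  rw [← sum_add_distrib]
  apply sum_le_sum
  intro c _
  by_cases h1 : c ∈ hA x ∧ c ∈ hB y ∧ Φ c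
  · rw [if_pos h1]
    rcases h c h1.2.2 with h2 | h2
    · rw [if_pos ⟨h1.1, h1.2.1, h2⟩]
      split_ifs <;> norm_num
    · rw [if_pos (show c ∈ hA x ∧ c ∈ hB y ∧ Θ c from ⟨h1.1, h1.2.1, h2⟩)]
      split_ifs <;> norm_num
  · rw [if_neg h1]
    split_ifs <;> norm_num

theorem tot_mono (hA : X → Finset C) (hB : Y → Finset C) {Φ Ψ : C → Prop} (A : Finset X)
    (B : Finset Y) (h : ∀ c, Φ c → Ψ c) : tot hA hB Φ A B ≤ tot hA hB Ψ A B :=
  sum_le_sum fun _ _ => sum_le_sum fun _ _ => cnt_mono fun c h1 _ h3 => ⟨h1, h c h3⟩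

theorem tot_le_add (hA : X → Finset C) (hB : Y → Finset C) {Φ Ψ Θ : C → Prop} (A : Finset X)
    (B : Finset Y) (h : ∀ c, Φ c → Ψ c ∨ Θ c) :
    tot hA hB Φ A B ≤ tot hA hB Ψ A B + tot hA hB Θ A B := by
  unfold tot
  rw [← sum_add_distrib]
  apply sum_le_sum
  intro x _
  rw [← sum_add_distrib]
  exact sum_le_sum fun y _ => cnt_le_add hA hB x y h

theorem tot_mono_left (hA : X → Finset C) (hB : Y → Finset C) (Φ : C → Prop) {A A' : Finset X}
    (B : Finset Y) (h : A' ⊆ A) : tot hA hB Φ A' B ≤ tot hA hB Φ A B :=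
  sum_le_sum_of_subset_of_nonneg h fun x _ _ => sum_nonneg fun y _ => cnt_nonneg hA hB Φ x y

theorem tot_le (hA : X → Finset C) (hB : Y → Finset C) (Φ : C → Prop) (A : Finset X)
    (B : Finset Y) (K : ℝ) (hK : ∀ y ∈ B, ((hB y).card : ℝ) ≤ K) :
    tot hA hB Φ A B ≤ K * (A.card * B.card) := by
  unfold tot
  calc _ ≤ ∑ _x ∈ A, ∑ _y ∈ B, K :=
        sum_le_sum fun x _ => sum_le_sum fun y hy => (cnt_le_card hA hB Φ x y).trans (hK y hy)
    _ = _ := by simp only [sum_const, nsmul_eq_mul]; ring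

theorem one_le_cnt {hA : X → Finset C} {hB : Y → Finset C} {Φ : C → Prop} {x : X} {y : Y}
    {c : C} (h1 : c ∈ hA x) (h2 : c ∈ hB y) (h3 : Φ c) : 1 ≤ cnt hA hB Φ x y := by
  classical
  unfold cnt
  refine le_trans ?_ (single_le_sum (fun c _ => by split_ifs <;> norm_num) (mem_univ c))
  rw [if_pos ⟨h1, h2, h3⟩]

theorem fubini (hA : X → Finset C) (hB : Y → Finset C) (Φ : C → Prop) [DecidablePred Φ]
    (A : Finset X)
    (B : Finset Y) (f : X → Y → ℝ) :
    ∑ c ∈ univ.filter Φ, ∑ x ∈ fa hA A c, ∑ y ∈ fa hB B c, f x y =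
      ∑ x ∈ A, ∑ y ∈ B, cnt hA hB Φ x y * f x y := by
  classical
  unfold cnt fa
  simp only [sum_filter, sum_mul]
  have : ∀ c : C, (if Φ c then ∑ x ∈ A, (if c ∈ hA x then
      ∑ y ∈ B, (if c ∈ hB y then f x y else 0) else 0) else 0) =
      ∑ x ∈ A, ∑ y ∈ B, (if c ∈ hA x ∧ c ∈ hB y ∧ Φ c then (1 : ℝ) else 0) * f x y := by
    intro c
    by_cases h : Φ c
    · rw [if_pos h]
      apply sum_congr rfl
      intro x _
      by_cases h1 : c ∈ hA x
      · rw [if_pos h1]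
        apply sum_congr rfl
        intro y _
        by_cases h2 : c ∈ hB y <;> simp [h, h1, h2]
      · simp [h1]
    · simp [h]
  simp only [this]
  rw [sum_comm]
  apply sum_congr rfl
  intro x _
  rw [sum_comm]
  apply sum_congr rfl
  intro y _
  apply sum_congr rfl
  intro c _
  congr

theorem tot_eq (hA : X → Finset C) (hB : Y → Finset C) (Φ : C → Prop) [DecidablePred Φ]
    (A : Finset X)
    (B : Finset Y) :
    tot hA hB Φ A B = ∑ c ∈ univ.filter Φ, ((fa hA A c).card * (fa hB B c).card : ℝ) := by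
  have := fubini hA hB Φ A B (fun _ _ => 1)
  simp only [sum_const, nsmul_eq_mul, mul_one] at this
  rw [this]
  rfl

theorem sum_fa_le (h : X → Finset C) (A : Finset X) (S : Finset C) (K : ℝ)
    (hK : ∀ x ∈ A, ((h x).card : ℝ) ≤ K) : ∑ c ∈ S, ((fa h A c).card : ℝ) ≤ K * A.card := by
  calc _ ≤ ∑ c, ((fa h A c).card : ℝ) :=
        sum_le_sum_of_subset_of_nonneg (subset_univ _) fun _ _ _ => Nat.cast_nonneg _
    _ = ∑ x ∈ A, ((h x).card : ℝ) := by
        unfold fa
        simp only [card_filter, Nat.cast_sum]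
        rw [sum_comm]
        apply sum_congr rfl
        intro x _
        simp
    _ ≤ ∑ _x ∈ A, K := sum_le_sum hK
    _ = _ := by rw [sum_const, nsmul_eq_mul, mul_comm]

/-- A cell that is dense on both sides of the rectangle. -/
def heavy (hA : X → Finset C) (hB : Y → Finset C) (σ : ℝ) (A : Finset X) (B : Finset Y)
    (c : C) : Prop :=
  σ * A.card ≤ (fa hA A c).card ∧ σ * B.card ≤ (fa hB B c).card

theorem tot_not_heavy (hA : X → Finset C) (hB : Y → Finset C) (σ K : ℝ) (A : Finset X)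
    (B : Finset Y) (hσ : 0 ≤ σ) (hKA : ∀ x ∈ A, ((hA x).card : ℝ) ≤ K)
    (hKB : ∀ y ∈ B, ((hB y).card : ℝ) ≤ K) :
    tot hA hB (fun c => ¬ heavy hA hB σ A B c) A B ≤ 2 * K * σ * (A.card * B.card) := by
  classical
  rw [tot_eq]
  apply light_sum univ _ (subset_univ _) (fun c => ((fa hA A c).card : ℝ))
    (fun c => ((fa hB B c).card : ℝ)) K σ _ _ (fun _ _ => Nat.cast_nonneg _)
    (fun _ _ => Nat.cast_nonneg _) hσ (Nat.cast_nonneg _) (Nat.cast_nonneg _)
    (sum_fa_le hA A _ K hKA) (sum_fa_le hB B _ K hKB)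
  intro c hc
  have : ¬ heavy hA hB σ A B c := by simpa using hc
  unfold heavy at this
  rw [not_and_or, not_le, not_le] at this
  rcases this with h | h
  · exact Or.inl h.le
  · exact Or.inr h.le

theorem sum_tot_le (hA hL : X → Finset C) (hB : Y → Finset C) (Pre F : C → Prop)
    [DecidablePred Pre] (A : Finset X)
    (B : Finset Y) (K : ℝ) (hKB : ∀ y ∈ B, ((hB y).card : ℝ) ≤ K) :
    ∑ c ∈ univ.filter Pre, tot hA hB F (fa hL A c) (fa hB B c) ≤ K * tot hA hB F A B := by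
  unfold tot
  rw [fubini, mul_sum]
  apply sum_le_sum
  intro x _
  rw [mul_sum]
  apply sum_le_sum
  intro y hy
  exact mul_le_mul_of_nonneg_right ((cnt_le_card hL hB Pre x y).trans (hKB y hy))
    (cnt_nonneg hA hB F x y)

theorem tilt_cells (hA hL : X → Finset C) (hB : Y → Finset C) (Pre : C → Prop)
    [DecidablePred Pre]
    (G : C → C → Prop) (A : Finset X) (B : Finset Y) (K w lam : ℝ)
    (hA0 : A.Nonempty) (hB0 : B.Nonempty) (hK : 0 < K) (hw : 0 < w) (hlam : 0 ≤ lam)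
    (hKA : ∀ x ∈ A, ((hL x).card : ℝ) ≤ K) (hKB : ∀ y ∈ B, ((hB y).card : ℝ) ≤ K)
    (hW : w * (A.card * B.card) ≤ tot hL hB Pre A B)
    (hP : ∑ c ∈ univ.filter Pre, tot hA hB (G c) (fa hL A c) (fa hB B c) ≤
      lam * tot hL hB Pre A B) :
    ∃ c, Pre c ∧ w / (4 * K) * A.card ≤ (fa hL A c).card ∧
      w / (4 * K) * B.card ≤ (fa hB B c).card ∧
      tot hA hB (G c) (fa hL A c) (fa hB B c) ≤
        2 * lam * ((fa hL A c).card * (fa hB B c).card) := by
  rw [tot_eq] at hW hP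
  obtain ⟨c, hc, h1, h2, h3⟩ := tilt (univ.filter Pre) (fun c => ((fa hL A c).card : ℝ))
    (fun c => ((fa hB B c).card : ℝ)) (fun c => tot hA hB (G c) (fa hL A c) (fa hB B c))
    K w A.card B.card lam (fun _ _ => Nat.cast_nonneg _) (fun _ _ => Nat.cast_nonneg _)
    (fun _ _ => tot_nonneg _ _ _ _ _) hK hw (by exact_mod_cast hA0.card_pos)
    (by exact_mod_cast hB0.card_pos) hlam (sum_fa_le hL A _ K hKA) (sum_fa_le hB B _ K hKB)
    hW hP
  exact ⟨c, (mem_filter.1 hc).2, h1, h2, h3⟩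

theorem caseY (hA : X → Finset C) (hB : Y → Finset C) (Pre F : C → Prop)
    (A : Finset X) (B : Finset Y) (K w f : ℝ)
    (hA0 : A.Nonempty) (hB0 : B.Nonempty) (hK : 0 < K) (hw : 0 < w) (hf : 0 ≤ f)
    (hKA : ∀ x ∈ A, ((hA x).card : ℝ) ≤ K) (hKB : ∀ y ∈ B, ((hB y).card : ℝ) ≤ K)
    (hW : w * (A.card * B.card) ≤ tot hA hB Pre A B)
    (hF : tot hA hB F A B ≤ f * (A.card * B.card)) :
    ∃ c, Pre c ∧ w / (4 * K) * A.card ≤ (fa hA A c).card ∧
      w / (4 * K) * B.card ≤ (fa hB B c).card ∧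
      tot hA hB F (fa hA A c) (fa hB B c) ≤
        2 * (K * f / w) * ((fa hA A c).card * (fa hB B c).card) := by
  classical
  apply tilt_cells hA hA hB Pre (fun _ => F) A B K w (K * f / w) hA0 hB0 hK hw (by positivity)
    hKA hKB hW
  calc _ ≤ K * tot hA hB F A B := sum_tot_le hA hA hB Pre F A B K hKB
    _ ≤ K * (f * (A.card * B.card)) := mul_le_mul_of_nonneg_left hF hK.le
    _ = K * f / w * (w * (A.card * B.card)) := by field_simp
    _ ≤ _ := mul_le_mul_of_nonneg_left hW (by positivity)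

end Pool.Agent.P.MP_a54059_lc.EQ
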