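import Pool.Agent.P.MP_a54059_lc.EQ.Basic

/-!
Random cleaning: a large rectangle on which given small sets are disjoint.
-/

namespace Pool.Agent.P.MP_a54059_lc.EQ

open Finset

/-- Weight of a random subset, each point kept with probability `p`. -/
noncomputable def wt {Ω : Type*} [Fintype Ω] [DecidableEq Ω] (p : ℝ) (Z : Finset Ω) : ℝ :=
  (∏ _i ∈ Z, p) * ∏ _i ∈ univ \ Z, (1 - p)

theorem wt_nonneg {Ω : Type*} [Fintype Ω] [DecidableEq Ω] {p : ℝ} (hp : 0 ≤ p) (hp1 : p ≤ 1)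
    (Z : Finset Ω) : 0 ≤ wt p Z :=
  mul_nonneg (prod_nonneg fun _ _ => hp) (prod_nonneg fun _ _ => by linarith)

theorem wt_sum {Ω : Type*} [Fintype Ω] [DecidableEq Ω] (p : ℝ) :
    ∑ Z : Finset Ω, wt p Z = 1 := by
  have := prod_add (fun _ : Ω => p) (fun _ : Ω => 1 - p) univ
  simp only [add_sub_cancel, prod_const_one, powerset_univ] at this
  rw [this]
  rfl

theorem wt_event {Ω : Type*} [Fintype Ω] [DecidableEq Ω] (p : ℝ) (T N : Finset Ω) :
    ∑ Z : Finset Ω, (if T ⊆ Z ∧ Disjoint N Z then wt p Z else 0) =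
      ∏ i, ((if i ∈ N then 0 else p) + (if i ∈ T then 0 else (1 - p))) := by
  rw [prod_add, powerset_univ]
  apply sum_congr rfl
  intro Z _
  by_cases h : T ⊆ Z ∧ Disjoint N Z
  · rw [if_pos h]
    unfold wt
    congr 1
    · apply prod_congr rfl
      intro i hi
      rw [if_neg]
      intro hN
      exact disjoint_left.1 h.2 hN hi
    · apply prod_congr rfl
      intro i hi
      rw [if_neg]
      intro hT
      exact (mem_sdiff.1 hi).2 (h.1 hT)
  · rw [if_neg h]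
    rw [not_and_or] at h
    rcases h with h | h
    · rw [not_subset] at h
      obtain ⟨i, hi, hiZ⟩ := h
      have : ∏ i ∈ univ \ Z, (if i ∈ T then (0 : ℝ) else (1 - p)) = 0 :=
        prod_eq_zero (i := i) (mem_sdiff.2 ⟨mem_univ _, hiZ⟩) (by rw [if_pos hi])
      rw [this, mul_zero]
    · rw [not_disjoint_iff] at h
      obtain ⟨i, hi, hiZ⟩ := h
      have : ∏ i ∈ Z, (if i ∈ N then (0 : ℝ) else p) = 0 :=
        prod_eq_zero (i := i) hiZ (by rw [if_pos hi])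
      rw [this, zero_mul]

theorem wt_event_le {Ω : Type*} [Fintype Ω] [DecidableEq Ω] {p : ℝ} (hp : 0 ≤ p) (hp1 : p ≤ 1)
    (T N : Finset Ω) :
    ∑ Z : Finset Ω, (if T ⊆ Z ∧ Disjoint N Z then wt p Z else 0) ≤ p ^ T.card := by
  rw [wt_event]
  calc _ ≤ ∏ i, (if i ∈ T then p else 1) := by
        apply prod_le_prod
        · intro i _
          split_ifs <;> linarith
        · intro i _
          split_ifs <;> linarith
    _ = p ^ T.card := by
        rw [prod_ite_mem, univ_inter, prod_const]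

theorem wt_event_ge {Ω : Type*} [Fintype Ω] [DecidableEq Ω] {p : ℝ} (hp : 0 ≤ p) (hp1 : p ≤ 1)
    (T N : Finset Ω) (hd : Disjoint T N) (hN : p * N.card ≤ 1 / 2) :
    p ^ T.card / 2 ≤ ∑ Z : Finset Ω, (if T ⊆ Z ∧ Disjoint N Z then wt p Z else 0) := by
  rw [wt_event]
  have h1 : ∏ i, ((if i ∈ N then 0 else p) + (if i ∈ T then 0 else (1 - p))) =
      (∏ i, (if i ∈ T then p else 1)) * ∏ i, (if i ∈ N then (1 - p) else 1) := by
    rw [← prod_mul_distrib]
    apply prod_congr rfl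
    intro i _
    by_cases hT : i ∈ T
    · have hN : i ∉ N := disjoint_left.1 hd hT
      simp [hT, hN]
    · by_cases hN : i ∈ N <;> simp [hT, hN]
  rw [h1, prod_ite_mem, univ_inter, prod_const, prod_ite_mem, univ_inter, prod_const]
  have h2 : 1 + (N.card : ℝ) * (-p) ≤ (1 + -p) ^ N.card := one_add_mul_le_pow (by linarith) _
  have h3 : (1 : ℝ) / 2 ≤ (1 - p) ^ N.card := by
    rw [← sub_eq_add_neg] at h2
    linarith
  have h4 : 0 ≤ p ^ T.card := pow_nonneg hp _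
  nlinarith

/-- Cleaning when all sets `T x` have the same size. -/
theorem clean_exact {X Y Ω : Type*} [Fintype Ω] [DecidableEq Ω] (A : Finset X) (B : Finset Y)
    (T : X → Finset Ω) (N : Y → Finset Ω) (q : ℕ) (p M : ℝ) (hp : 0 < p) (hp1 : p ≤ 1)
    (hA : A.Nonempty) (hB : B.Nonempty)
    (hT : ∀ x ∈ A, (T x).card = q) (hN : ∀ y ∈ B, p * (N y).card ≤ 1 / 2)
    (hbad : ∑ x ∈ A, ∑ y ∈ B, (if Disjoint (T x) (N y) then (0 : ℝ) else 1) ≤
      (A.card * B.card : ℝ) / 2)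
    (φ : X → Y → ℝ) (hφ : ∀ x y, 0 ≤ φ x y) (hM : 0 ≤ M)
    (hs : ∑ x ∈ A, ∑ y ∈ B, φ x y ≤ M * (A.card * B.card)) :
    ∃ A' ⊆ A, ∃ B' ⊆ B, (∀ x ∈ A', ∀ y ∈ B', Disjoint (T x) (N y)) ∧
      p ^ q / 8 * (A.card * B.card) ≤ (A'.card * B'.card : ℝ) ∧
      ∑ x ∈ A', ∑ y ∈ B', φ x y ≤ 8 * M * (A'.card * B'.card) := by
  classical
  set AZ : Finset Ω → Finset X := fun Z => A.filter (fun x => T x ⊆ Z) with hAZ
  set BZ : Finset Ω → Finset Y := fun Z => B.filter (fun y => Disjoint (N y) Z) with hBZ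
  have key : ∀ f : X → Y → ℝ, ∑ Z : Finset Ω, wt p Z * ∑ x ∈ AZ Z, ∑ y ∈ BZ Z, f x y =
      ∑ x ∈ A, ∑ y ∈ B, f x y *
        ∑ Z : Finset Ω, (if T x ⊆ Z ∧ Disjoint (N y) Z then wt p Z else 0) := by
    intro f
    simp only [hAZ, hBZ, sum_filter, mul_sum]
    rw [sum_comm]
    apply sum_congr rfl
    intro x _
    rw [sum_comm]
    apply sum_congr rfl
    intro Z _
    by_cases h1 : T x ⊆ Z
    · simp only [h1, if_true, true_and, mul_sum]
      apply sum_congr rfl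
      intro y _
      split_ifs <;> ring
    · simp [h1]
  have hAp : (0 : ℝ) < A.card := by exact_mod_cast hA.card_pos
  have hBp : (0 : ℝ) < B.card := by exact_mod_cast hB.card_pos
  set D : ℝ := p ^ q / 8 * (A.card * B.card) with hD
  have hpq : 0 < p ^ q := pow_pos hp q
  have hD0 : 0 < D := by positivity
  have e1 : 2 * D ≤ ∑ Z : Finset Ω, wt p Z * ((AZ Z).card * (BZ Z).card : ℝ) := by
    have k1 := key (fun _ _ => 1)
    simp only [sum_const, nsmul_eq_mul, mul_one, one_mul] at k1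
    rw [k1]
    have : ∑ x ∈ A, ∑ y ∈ B, (p ^ q / 2 - p ^ q / 2 *
        (if Disjoint (T x) (N y) then (0 : ℝ) else 1)) ≤ ∑ x ∈ A, ∑ y ∈ B,
        ∑ Z : Finset Ω, (if T x ⊆ Z ∧ Disjoint (N y) Z then wt p Z else 0) := by
      apply sum_le_sum
      intro x hx
      apply sum_le_sum
      intro y hy
      by_cases h : Disjoint (T x) (N y)
      · rw [if_pos h, mul_zero, sub_zero, ← hT x hx]
        exact wt_event_ge hp.le hp1 _ _ h (hN y hy)
      · rw [if_neg h, mul_one, sub_self]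
        apply sum_nonneg
        intro Z _
        split_ifs
        · exact wt_nonneg hp.le hp1 Z
        · exact le_rfl
    simp only [sum_sub_distrib, sum_const, nsmul_eq_mul, ← mul_sum] at this
    have h2 := mul_le_mul_of_nonneg_left hbad (show 0 ≤ p ^ q / 2 by positivity)
    rw [hD]
    linarith
  have e2 : ∑ Z : Finset Ω, wt p Z * ∑ x ∈ AZ Z, ∑ y ∈ BZ Z, φ x y ≤ 8 * M * D := by
    rw [key]
    calc _ ≤ ∑ x ∈ A, ∑ y ∈ B, φ x y * p ^ q := by
          apply sum_le_sum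
          intro x hx
          apply sum_le_sum
          intro y _
          apply mul_le_mul_of_nonneg_left _ (hφ x y)
          rw [← hT x hx]
          exact wt_event_le hp.le hp1 _ _
      _ = (∑ x ∈ A, ∑ y ∈ B, φ x y) * p ^ q := by simp only [sum_mul]
      _ ≤ M * (A.card * B.card) * p ^ q := mul_le_mul_of_nonneg_right hs hpq.le
      _ = 8 * M * D := by rw [hD]; ring
  set Big := (univ : Finset (Finset Ω)).filter
    (fun Z => D ≤ ((AZ Z).card * (BZ Z).card : ℝ)) with hBig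
  have e3 : D ≤ ∑ Z ∈ Big, wt p Z * ((AZ Z).card * (BZ Z).card : ℝ) := by
    have s1 := sum_filter_add_sum_filter_not (univ : Finset (Finset Ω))
      (fun Z => D ≤ ((AZ Z).card * (BZ Z).card : ℝ))
      (fun Z => wt p Z * ((AZ Z).card * (BZ Z).card : ℝ))
    have s2 : ∑ Z ∈ univ.filter (fun Z => ¬ D ≤ ((AZ Z).card * (BZ Z).card : ℝ)),
        wt p Z * ((AZ Z).card * (BZ Z).card : ℝ) ≤ ∑ Z : Finset Ω, wt p Z * D := by
      calc _ ≤ ∑ Z ∈ univ.filter (fun Z => ¬ D ≤ ((AZ Z).card * (BZ Z).card : ℝ)),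
            wt p Z * D := by
            apply sum_le_sum
            intro Z hZ
            exact mul_le_mul_of_nonneg_left (not_le.1 (mem_filter.1 hZ).2).le
              (wt_nonneg hp.le hp1 Z)
        _ ≤ _ := sum_le_sum_of_subset_of_nonneg (filter_subset _ _)
            (fun Z _ _ => mul_nonneg (wt_nonneg hp.le hp1 Z) hD0.le)
    rw [← sum_mul, wt_sum, one_mul] at s2
    linarith
  have hφs : ∀ Z, 0 ≤ ∑ x ∈ AZ Z, ∑ y ∈ BZ Z, φ x y :=
    fun Z => sum_nonneg fun x _ => sum_nonneg fun y _ => hφ x y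
  have e4 : ∑ Z ∈ Big, wt p Z * ∑ x ∈ AZ Z, ∑ y ∈ BZ Z, φ x y ≤
      ∑ Z : Finset Ω, wt p Z * ∑ x ∈ AZ Z, ∑ y ∈ BZ Z, φ x y :=
    sum_le_sum_of_subset_of_nonneg (filter_subset _ _)
      (fun Z _ _ => mul_nonneg (wt_nonneg hp.le hp1 Z) (hφs Z))
  obtain ⟨Z, hZ, hZ1, hZ2⟩ := select_ratio Big
    (fun Z => wt p Z * ∑ x ∈ AZ Z, ∑ y ∈ BZ Z, φ x y)
    (fun Z => wt p Z * ((AZ Z).card * (BZ Z).card : ℝ)) (8 * M)
    (fun Z _ => mul_nonneg (wt_nonneg hp.le hp1 Z) (hφs Z))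
    (fun Z _ => mul_nonneg (wt_nonneg hp.le hp1 Z) (by positivity))
    (by have := mul_le_mul_of_nonneg_left e3 (show 0 ≤ 8 * M by positivity); linarith)
    (by linarith)
  have hw : 0 < wt p Z := by
    rcases (wt_nonneg hp.le hp1 Z).eq_or_lt with h | h
    · rw [← h] at hZ1; simp at hZ1
    · exact h
  refine ⟨AZ Z, filter_subset _ _, BZ Z, filter_subset _ _, ?_, (mem_filter.1 hZ).2, ?_⟩
  · intro x hx y hy
    exact ((mem_filter.1 hy).2.mono_right (mem_filter.1 hx).2).symm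
  · have : wt p Z * ∑ x ∈ AZ Z, ∑ y ∈ BZ Z, φ x y ≤
        wt p Z * (8 * M * ((AZ Z).card * (BZ Z).card : ℝ)) := by linarith
    exact le_of_mul_le_mul_left this hw

/-- Cleaning, with two functionals. -/
theorem clean {X Y Ω : Type*} [Fintype Ω] [DecidableEq Ω] (A : Finset X) (B : Finset Y)
    (T : X → Finset Ω) (N : Y → Finset Ω) (q : ℕ) (p M1 M2 : ℝ) (hp : 0 < p) (hp1 : p ≤ 1)
    (hA : A.Nonempty) (hB : B.Nonempty)
    (hT : ∀ x ∈ A, (T x).card ≤ q) (hN : ∀ y ∈ B, p * (N y).card ≤ 1 / 2)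
    (hbad : ∑ x ∈ A, ∑ y ∈ B, (if Disjoint (T x) (N y) then (0 : ℝ) else 1) ≤
      (A.card * B.card : ℝ) / 2)
    (φ1 φ2 : X → Y → ℝ) (hφ1 : ∀ x y, 0 ≤ φ1 x y) (hφ2 : ∀ x y, 0 ≤ φ2 x y)
    (hM1 : 0 < M1) (hM2 : 0 < M2)
    (hs1 : ∑ x ∈ A, ∑ y ∈ B, φ1 x y ≤ M1 * (A.card * B.card))
    (hs2 : ∑ x ∈ A, ∑ y ∈ B, φ2 x y ≤ M2 * (A.card * B.card)) :
    ∃ A' ⊆ A, ∃ B' ⊆ B, (∀ x ∈ A', ∀ y ∈ B', Disjoint (T x) (N y)) ∧
      p ^ q / 8 * (A.card * B.card) ≤ (A'.card * B'.card : ℝ) ∧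
      ∑ x ∈ A', ∑ y ∈ B', φ1 x y ≤ 16 * M1 * (A'.card * B'.card) ∧
      ∑ x ∈ A', ∑ y ∈ B', φ2 x y ≤ 16 * M2 * (A'.card * B'.card) := by
  classical
  have hpad : ∀ x : X, ∃ P : Finset (Fin q), P.card = q - (T x).card := by
    intro x
    obtain ⟨P, -, hP⟩ := exists_subset_card_eq (s := (univ : Finset (Fin q)))
      (n := q - (T x).card) (by simp)
    exact ⟨P, hP⟩
  choose P hP using hpad
  have hdis : ∀ x y, Disjoint ((T x).disjSum (P x)) ((N y).disjSum (∅ : Finset (Fin q))) ↔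
      Disjoint (T x) (N y) := by
    intro x y
    simp only [disjoint_left, Sum.forall, inl_mem_disjSum, inr_mem_disjSum, notMem_empty,
      not_false_eq_true, implies_true, and_true]
  obtain ⟨A', hA', B', hB', h1, h2, h3⟩ := clean_exact A B (fun x => (T x).disjSum (P x))
    (fun y => (N y).disjSum (∅ : Finset (Fin q))) q p (2 * M1 * M2) hp hp1 hA hB
    (by intro x hx; rw [card_disjSum, hP]; have := hT x hx; omega)
    (by intro y hy; rw [card_disjSum]; simpa using hN y hy)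
    (by simp only [hdis]; exact hbad)
    (fun x y => M2 * φ1 x y + M1 * φ2 x y)
    (fun x y => add_nonneg (mul_nonneg hM2.le (hφ1 x y)) (mul_nonneg hM1.le (hφ2 x y)))
    (by positivity)
    (by
      simp only [sum_add_distrib, ← mul_sum]
      have a1 := mul_le_mul_of_nonneg_left hs1 hM2.le
      have a2 := mul_le_mul_of_nonneg_left hs2 hM1.le
      linarith)
  simp only [sum_add_distrib, ← mul_sum] at h3
  have n1 : 0 ≤ ∑ x ∈ A', ∑ y ∈ B', φ1 x y := sum_nonneg fun x _ => sum_nonneg fun y _ => hφ1 x y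
  have n2 : 0 ≤ ∑ x ∈ A', ∑ y ∈ B', φ2 x y := sum_nonneg fun x _ => sum_nonneg fun y _ => hφ2 x y
  refine ⟨A', hA', B', hB', fun x hx y hy => (hdis x y).1 (h1 x hx y hy), h2, ?_, ?_⟩
  · have a := mul_nonneg hM1.le n2
    have : M2 * ∑ x ∈ A', ∑ y ∈ B', φ1 x y ≤ M2 * (16 * M1 * (A'.card * B'.card)) := by linarith
    exact le_of_mul_le_mul_left this hM2
  · have a := mul_nonneg hM2.le n1
    have : M1 * ∑ x ∈ A', ∑ y ∈ B', φ2 x y ≤ M1 * (16 * M2 * (A'.card * B'.card)) := by linarith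
    exact le_of_mul_le_mul_left this hM1

end Pool.Agent.P.MP_a54059_lc.EQ
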