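import Mathlib

/-!
Both signs of the inner product occur often on every large rectangle of the cube.
-/

namespace Pool.Agent.P.MP_a54059_lc.EQ

open Finset

/-- The sign of a bit. -/
def chi (b : Bool) : ℝ := if b then -1 else 1

theorem chi_sq (b : Bool) : chi b * chi b = 1 := by cases b <;> simp [chi]

/-- The inner product of the sign vectors. -/
def ip {n : ℕ} (x y : Fin n → Bool) : ℝ := ∑ i, chi (x i) * chi (y i)

theorem ip_eq {n : ℕ} (x y : Fin n → Bool) : ip x y = n - 2 * (hammingDist x y : ℝ) := by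
  unfold ip hammingDist
  rw [card_filter]
  push_cast
  have : ∀ i, chi (x i) * chi (y i) = 1 - 2 * (if x i ≠ y i then (1 : ℝ) else 0) := by
    intro i
    cases x i <;> cases y i <;> simp [chi] <;> norm_num
  simp only [this, sum_sub_distrib, ← mul_sum]
  simp

theorem abs_ip_le {n : ℕ} (x y : Fin n → Bool) : |ip x y| ≤ n := by
  unfold ip
  calc _ ≤ ∑ i, |chi (x i) * chi (y i)| := abs_sum_le_sum_abs _ _
    _ = ∑ _i : Fin n, (1 : ℝ) := by
        apply sum_congr rfl
        intro i _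
        cases x i <;> cases y i <;> simp [chi]
    _ = n := by simp

theorem sum_prod_bool {M : Type*} [CommSemiring M] {n : ℕ} (f : Fin n → Bool → M) :
    ∑ x : Fin n → Bool, ∏ i, f i (x i) = ∏ i, (f i true + f i false) := by
  have := Finset.prod_univ_sum (fun _ : Fin n => (univ : Finset Bool)) f
  rw [Fintype.piFinset_univ] at this
  rw [← this]
  simp

/-- Level-one inequality. -/
theorem level_one {n : ℕ} (A : Finset (Fin n → Bool)) (a : Fin n → ℝ)
    (ha : ∀ i, ∑ x ∈ A, chi (x i) = A.card * a i) :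
    (A.card : ℝ) * Real.exp ((∑ i, a i ^ 2) / 2) ≤ 2 ^ n := by
  set Q := ∑ i, a i ^ 2 with hQ
  have h1 : ∑ x ∈ A, ∑ i, a i * chi (x i) = A.card * Q := by
    rw [sum_comm, hQ, mul_sum]
    apply sum_congr rfl
    intro i _
    rw [← mul_sum, ha]
    ring
  have h2 : (A.card : ℝ) * Real.exp Q ≤ ∑ x ∈ A, Real.exp (∑ i, a i * chi (x i)) := by
    have : ∑ x ∈ A, Real.exp Q * ((∑ i, a i * chi (x i)) - Q + 1) ≤
        ∑ x ∈ A, Real.exp (∑ i, a i * chi (x i)) := by
      apply sum_le_sum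
      intro x _
      have b1 := Real.add_one_le_exp ((∑ i, a i * chi (x i)) - Q)
      have b2 := mul_le_mul_of_nonneg_left b1 (Real.exp_pos Q).le
      rw [← Real.exp_add] at b2
      simpa using b2
    rw [← mul_sum, sum_add_distrib, sum_sub_distrib, h1] at this
    simp only [sum_const, nsmul_eq_mul, mul_one] at this
    linarith
  have h3 : ∑ x ∈ A, Real.exp (∑ i, a i * chi (x i)) ≤
      ∑ x : Fin n → Bool, Real.exp (∑ i, a i * chi (x i)) :=
    sum_le_sum_of_subset_of_nonneg (subset_univ _) fun _ _ _ => (Real.exp_pos _).le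
  have h4 : ∑ x : Fin n → Bool, Real.exp (∑ i, a i * chi (x i)) ≤ 2 ^ n * Real.exp (Q / 2) := by
    simp only [Real.exp_sum]
    rw [sum_prod_bool (fun i b => Real.exp (a i * chi b))]
    calc _ ≤ ∏ i, (2 * Real.exp (a i ^ 2 / 2)) := by
          apply prod_le_prod
          · intro i _
            positivity
          · intro i _
            have := Real.cosh_le_exp_half_sq (a i)
            rw [Real.cosh_eq] at this
            simp only [chi, if_true, Bool.false_eq_true, if_false, mul_neg, mul_one]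
            linarith
      _ = 2 ^ n * Real.exp (Q / 2) := by
          rw [prod_mul_distrib, prod_const, card_univ, Fintype.card_fin, ← Real.exp_sum, hQ,
            sum_div]
  have h5 : Real.exp Q = Real.exp (Q / 2) * Real.exp (Q / 2) := by
    rw [← Real.exp_add]; congr 1; ring
  have h6 : (A.card : ℝ) * Real.exp (Q / 2) * Real.exp (Q / 2) ≤ 2 ^ n * Real.exp (Q / 2) := by
    rw [mul_assoc, ← h5]; linarith
  exact le_of_mul_le_mul_right h6 (Real.exp_pos _)

theorem mean_ip {n h : ℕ} (A B : Finset (Fin n → Bool)) (hA : A.Nonempty) (hB : B.Nonempty)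
    (hs : (4 : ℝ) ^ n ≤ 2 ^ h * (A.card * B.card)) :
    |∑ x ∈ A, ∑ y ∈ B, ip x y| ≤ h * (A.card * B.card) := by
  have hAp : (0 : ℝ) < A.card := by exact_mod_cast hA.card_pos
  have hBp : (0 : ℝ) < B.card := by exact_mod_cast hB.card_pos
  obtain ⟨a, ha'⟩ : ∃ a : Fin n → ℝ, ∀ i, ∑ x ∈ A, chi (x i) = A.card * a i :=
    ⟨fun i => (∑ x ∈ A, chi (x i)) / A.card, fun i => (mul_div_cancel₀ _ hAp.ne').symm⟩
  obtain ⟨b, hb'⟩ : ∃ b : Fin n → ℝ, ∀ i, ∑ y ∈ B, chi (y i) = B.card * b i :=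
    ⟨fun i => (∑ y ∈ B, chi (y i)) / B.card, fun i => (mul_div_cancel₀ _ hBp.ne').symm⟩
  have l1 := level_one A a ha'
  have l2 := level_one B b hb'
  have h1 : ∑ x ∈ A, ∑ y ∈ B, ip x y = (∑ i, a i * b i) * (A.card * B.card) := by
    unfold ip
    rw [sum_mul]
    calc _ = ∑ x ∈ A, ∑ i, ∑ y ∈ B, chi (x i) * chi (y i) := by
          apply sum_congr rfl
          intro x _
          rw [sum_comm]
      _ = ∑ i, ∑ x ∈ A, ∑ y ∈ B, chi (x i) * chi (y i) := sum_comm
      _ = _ := by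
          apply sum_congr rfl
          intro i _
          rw [← sum_mul_sum, ha', hb']
          ring
  set P := (∑ i, a i ^ 2) / 2 + (∑ i, b i ^ 2) / 2 with hP
  have h2 : |∑ i, a i * b i| ≤ P := by
    calc _ ≤ ∑ i, |a i * b i| := abs_sum_le_sum_abs _ _
      _ ≤ ∑ i, (a i ^ 2 / 2 + b i ^ 2 / 2) := by
          apply sum_le_sum
          intro i _
          rw [abs_le]
          constructor <;> nlinarith [sq_nonneg (a i + b i), sq_nonneg (a i - b i)]
      _ = P := by rw [hP, sum_add_distrib, sum_div, sum_div]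
  have h3 : Real.exp P ≤ Real.exp h := by
    have b1 := mul_le_mul l1 l2 (by positivity) (by positivity)
    have b2 : (2 : ℝ) ^ n * 2 ^ n = 4 ^ n := by rw [← mul_pow]; norm_num
    have b3 : (A.card * B.card : ℝ) * Real.exp P ≤ (A.card * B.card) * 2 ^ h := by
      rw [hP, Real.exp_add]; linarith
    have b4 : Real.exp P ≤ 2 ^ h := le_of_mul_le_mul_left b3 (by positivity)
    have b5 : (2 : ℝ) ^ h ≤ Real.exp 1 ^ h := pow_le_pow_left₀ (by norm_num)
      (by have := Real.add_one_le_exp (1 : ℝ); linarith) h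
    rw [← Real.exp_nat_mul, mul_one] at b5
    linarith
  have h4 : P ≤ h := Real.exp_le_exp.1 h3
  rw [h1, abs_mul, abs_of_pos (show (0 : ℝ) < A.card * B.card by positivity)]
  exact mul_le_mul_of_nonneg_right (h2.trans h4) (by positivity)

theorem sum_cos {n : ℕ} (d : Fin n → ℝ) :
    ∑ x : Fin n → Bool, Real.cos (∑ i, chi (x i) * d i) = ∏ i, 2 * Real.cos (d i) := by
  have h1 : ∑ x : Fin n → Bool, Complex.exp (((∑ i, chi (x i) * d i : ℝ) : ℂ) * Complex.I) =
      ((∏ i, 2 * Real.cos (d i) : ℝ) : ℂ) := by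
    have : ∀ x : Fin n → Bool, Complex.exp (((∑ i, chi (x i) * d i : ℝ) : ℂ) * Complex.I) =
        ∏ i, Complex.exp (((chi (x i) * d i : ℝ) : ℂ) * Complex.I) := by
      intro x
      rw [← Complex.exp_sum, Complex.ofReal_sum, sum_mul]
    simp only [this]
    rw [sum_prod_bool (fun i b => Complex.exp (((chi b * d i : ℝ) : ℂ) * Complex.I))]
    push_cast
    apply prod_congr rfl
    intro i _
    rw [Complex.two_cos]
    simp [chi, add_comm]
  have h2 := congrArg Complex.re h1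
  rw [Complex.re_sum, Complex.ofReal_re] at h2
  simpa only [Complex.exp_ofReal_mul_I_re] using h2

theorem cos_rect {n : ℕ} (A B : Finset (Fin n → Bool)) (θ : ℝ) (hθ : 0 ≤ Real.cos (2 * θ)) :
    (∑ x ∈ A, ∑ y ∈ B, Real.cos (θ * ip x y)) ^ 2 ≤
      A.card * B.card * (4 * Real.cos θ ^ 2) ^ n := by
  have h1 : (∑ x ∈ A, ∑ y ∈ B, Real.cos (θ * ip x y)) ^ 2 ≤
      A.card * ∑ x ∈ A, (∑ y ∈ B, Real.cos (θ * ip x y)) ^ 2 := sq_sum_le_card_mul_sum_sq
  have h2 : ∑ x ∈ A, (∑ y ∈ B, Real.cos (θ * ip x y)) ^ 2 ≤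
      ∑ x : Fin n → Bool, ((∑ y ∈ B, Real.cos (θ * ip x y)) ^ 2 +
        (∑ y ∈ B, Real.sin (θ * ip x y)) ^ 2) := by
    calc _ ≤ ∑ x : Fin n → Bool, (∑ y ∈ B, Real.cos (θ * ip x y)) ^ 2 :=
          sum_le_sum_of_subset_of_nonneg (subset_univ _) fun _ _ _ => sq_nonneg _
      _ ≤ _ := sum_le_sum fun x _ => le_add_of_nonneg_right (sq_nonneg _)
  have h3 : ∀ x : Fin n → Bool, (∑ y ∈ B, Real.cos (θ * ip x y)) ^ 2 +
      (∑ y ∈ B, Real.sin (θ * ip x y)) ^ 2 =
      ∑ y ∈ B, ∑ y' ∈ B, Real.cos (∑ i, chi (x i) * (θ * (chi (y i) - chi (y' i)))) := by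
    intro x
    rw [sq, sq, sum_mul_sum, sum_mul_sum, ← sum_add_distrib]
    apply sum_congr rfl
    intro y _
    rw [← sum_add_distrib]
    apply sum_congr rfl
    intro y' _
    rw [← Real.cos_sub]
    congr 1
    unfold ip
    rw [mul_sum, mul_sum, ← sum_sub_distrib]
    apply sum_congr rfl
    intro i _
    ring
  have hc : ∀ u v : Bool, 0 ≤ 2 * Real.cos (θ * (chi u - chi v)) := by
    intro u v
    have e1 : θ * (1 + 1) = 2 * θ := by ring
    have e2 : θ * (-1 - 1) = -(2 * θ) := by ring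
    cases u <;> cases v <;> simp only [chi, if_true, Bool.false_eq_true, if_false, sub_self,
      mul_zero, Real.cos_zero, sub_neg_eq_add, e1, e2, Real.cos_neg] <;> linarith
  have h4 : ∑ x : Fin n → Bool, ∑ y ∈ B, ∑ y' ∈ B,
      Real.cos (∑ i, chi (x i) * (θ * (chi (y i) - chi (y' i)))) ≤
      B.card * (4 * Real.cos θ ^ 2) ^ n := by
    rw [sum_comm]
    calc _ ≤ ∑ _y ∈ B, (4 * Real.cos θ ^ 2) ^ n := by
          apply sum_le_sum
          intro y _
          rw [sum_comm]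
          simp only [sum_cos]
          calc _ ≤ ∑ y' : Fin n → Bool, ∏ i, 2 * Real.cos (θ * (chi (y i) - chi (y' i))) :=
                sum_le_sum_of_subset_of_nonneg (subset_univ _)
                  fun _ _ _ => prod_nonneg fun i _ => hc _ _
            _ = ∏ _i : Fin n, 4 * Real.cos θ ^ 2 := by
                rw [sum_prod_bool (fun i b => 2 * Real.cos (θ * (chi (y i) - chi b)))]
                apply prod_congr rfl
                intro i _
                have e1 : θ * (1 + 1) = 2 * θ := by ring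
                have e2 : θ * (-1 - 1) = -(2 * θ) := by ring
                have e3 := Real.cos_two_mul θ
                cases y i <;> simp only [chi, if_true, Bool.false_eq_true, if_false, sub_self,
                  mul_zero, Real.cos_zero, sub_neg_eq_add, e1, e2, Real.cos_neg] <;> linarith
            _ = _ := by simp
      _ = _ := by simp
  simp only [h3] at h2
  calc _ ≤ _ := h1
    _ ≤ A.card * (B.card * (4 * Real.cos θ ^ 2) ^ n) :=
        mul_le_mul_of_nonneg_left (h2.trans h4) (Nat.cast_nonneg _)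
    _ = _ := by ring

theorem mean_abs_ip {n h : ℕ} (hh : 1 ≤ h) (hn : 640 * h ^ 3 ≤ n) (A B : Finset (Fin n → Bool))
    (hA : A.Nonempty) (hB : B.Nonempty) (hs : (4 : ℝ) ^ n ≤ 2 ^ h * (A.card * B.card)) :
    4 * h * (A.card * B.card : ℝ) ≤ ∑ x ∈ A, ∑ y ∈ B, |ip x y| := by
  have hAp : (0 : ℝ) < A.card := by exact_mod_cast hA.card_pos
  have hBp : (0 : ℝ) < B.card := by exact_mod_cast hB.card_pos
  have hh' : (1 : ℝ) ≤ h := by exact_mod_cast hh
  have hn' : 640 * (h : ℝ) ^ 3 ≤ n := by exact_mod_cast hn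
  set θ : ℝ := 1 / (8 * h) with hθ
  have hθ0 : 0 < θ := by positivity
  have hθ1 : θ ≤ 1 / 8 := one_div_le_one_div_of_le (by norm_num) (by linarith)
  have hpi := Real.pi_gt_three
  have hc2 : 0 ≤ Real.cos (2 * θ) :=
    Real.cos_nonneg_of_neg_pi_div_two_le_of_le (by linarith) (by linarith)
  have hc1 : 0 ≤ Real.cos θ :=
    Real.cos_nonneg_of_neg_pi_div_two_le_of_le (by linarith) (by linarith)
  have h1 := cos_rect A B θ hc2
  have h2 : Real.cos θ ≤ Real.exp (-(θ ^ 2 / 5)) := by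
    have a1 : Real.cos θ ≤ 1 - 2 / Real.pi ^ 2 * θ ^ 2 :=
      Real.cos_le_one_sub_mul_cos_sq (by rw [abs_of_pos hθ0]; linarith)
    have a2 : (1 : ℝ) / 5 ≤ 2 / Real.pi ^ 2 := by
      rw [div_le_div_iff₀ (by norm_num) (by positivity)]
      have := Real.pi_lt_d2
      nlinarith
    have a3 := Real.add_one_le_exp (-(θ ^ 2 / 5))
    nlinarith [sq_nonneg θ]
  have h3 : (Real.cos θ ^ 2) ^ n ≤ (1 / 16) ^ h := by
    have a1 : (Real.cos θ ^ 2) ^ n ≤ (Real.exp (-(θ ^ 2 / 5)) ^ 2) ^ n :=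
      pow_le_pow_left₀ (sq_nonneg _) (pow_le_pow_left₀ hc1 h2 2) n
    rw [← Real.exp_nat_mul, ← Real.exp_nat_mul] at a1
    have a2 : (n : ℝ) * ((2 : ℕ) * -(θ ^ 2 / 5)) ≤ h * (-4) := by
      have : θ ^ 2 * (640 * (h : ℝ) ^ 3) = 10 * h := by rw [hθ]; field_simp; ring
      have b := mul_le_mul_of_nonneg_left hn' (sq_nonneg θ)
      push_cast
      nlinarith
    have a3 : Real.exp (-4) ≤ 1 / 16 := by
      rw [Real.exp_neg, ← one_div]
      apply one_div_le_one_div_of_le (by norm_num)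
      have b1 : (2 : ℝ) ^ 4 ≤ Real.exp 1 ^ 4 := pow_le_pow_left₀ (by norm_num)
        (by have := Real.add_one_le_exp (1 : ℝ); linarith) 4
      rw [← Real.exp_nat_mul] at b1
      norm_num at b1
      exact b1
    calc _ ≤ _ := a1
      _ ≤ Real.exp (h * (-4)) := Real.exp_le_exp.2 a2
      _ = Real.exp (-4) ^ h := Real.exp_nat_mul _ _
      _ ≤ _ := pow_le_pow_left₀ (Real.exp_pos _).le a3 h
  have h4 : (2 : ℝ) ^ h * (1 / 16) ^ h ≤ 1 / 4 := by
    rw [← mul_pow]
    calc _ ≤ ((2 : ℝ) * (1 / 16)) ^ 1 := pow_le_pow_of_le_one (by norm_num) (by norm_num) hh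
      _ ≤ _ := by norm_num
  have h5 : (∑ x ∈ A, ∑ y ∈ B, Real.cos (θ * ip x y)) ^ 2 ≤ ((A.card * B.card : ℝ) / 2) ^ 2 := by
    rw [mul_pow] at h1
    have a1 : (4 : ℝ) ^ n * (Real.cos θ ^ 2) ^ n ≤ 2 ^ h * (A.card * B.card) * (1 / 16) ^ h :=
      mul_le_mul hs h3 (by positivity) (by positivity)
    have a2 : (A.card * B.card : ℝ) * (2 ^ h * (1 / 16) ^ h) ≤ (A.card * B.card) * (1 / 4) :=
      mul_le_mul_of_nonneg_left h4 (by positivity)
    have a3 : (4 : ℝ) ^ n * (Real.cos θ ^ 2) ^ n ≤ (A.card * B.card) * (1 / 4) := by linarith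
    have a4 := mul_le_mul_of_nonneg_left a3 (show (0 : ℝ) ≤ A.card * B.card by positivity)
    linarith
  have h6 : ∑ x ∈ A, ∑ y ∈ B, Real.cos (θ * ip x y) ≤ (A.card * B.card : ℝ) / 2 :=
    le_trans (le_abs_self _) (abs_le_of_sq_le_sq h5 (by positivity))
  have h7 : ∑ x ∈ A, ∑ y ∈ B, (1 - Real.cos (θ * ip x y)) ≤
      ∑ x ∈ A, ∑ y ∈ B, θ * |ip x y| := by
    apply sum_le_sum
    intro x _
    apply sum_le_sum
    intro y _
    have a1 := Real.abs_cos_sub_cos_le 0 (θ * ip x y)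
    rw [Real.cos_zero, zero_sub, abs_neg, abs_mul, abs_of_pos hθ0] at a1
    exact (le_abs_self _).trans a1
  simp only [sum_sub_distrib, sum_const, nsmul_eq_mul, mul_one, ← mul_sum] at h7
  have h8 : θ * (4 * h * (A.card * B.card : ℝ)) = (A.card * B.card : ℝ) / 2 := by
    rw [hθ]; field_simp; ring
  have h9 : θ * (4 * h * (A.card * B.card : ℝ)) ≤ θ * ∑ x ∈ A, ∑ y ∈ B, |ip x y| := by linarith
  exact le_of_mul_le_mul_left h9 hθ0

/-- Both signs are frequent. -/
theorem both_signs {n h : ℕ} (hh : 1 ≤ h) (hn : 640 * h ^ 3 ≤ n) (A B : Finset (Fin n → Bool))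
    (hA : A.Nonempty) (hB : B.Nonempty) (hs : (4 : ℝ) ^ n ≤ 2 ^ h * (A.card * B.card))
    (s : ℝ) (hs1 : s = 1 ∨ s = -1) (f : (Fin n → Bool) → (Fin n → Bool) → ℝ)
    (hf0 : ∀ x y, 0 ≤ f x y) (hf : ∀ x ∈ A, ∀ y ∈ B, 0 < s * ip x y → 1 ≤ f x y) :
    (A.card * B.card : ℝ) ≤ n * ∑ x ∈ A, ∑ y ∈ B, f x y := by
  have h1 := mean_ip A B hA hB hs
  have h2 := mean_abs_ip hh hn A B hA hB hs
  have hh' : (1 : ℝ) ≤ h := by exact_mod_cast hh
  have h3 : ∑ x ∈ A, ∑ y ∈ B, (|ip x y| + s * ip x y) ≤ ∑ x ∈ A, ∑ y ∈ B, 2 * n * f x y := by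
    apply sum_le_sum
    intro x hx
    apply sum_le_sum
    intro y hy
    have a0 : |s * ip x y| = |ip x y| := by
      rcases hs1 with h | h <;> simp [h]
    have a1 := abs_ip_le x y
    by_cases hp : 0 < s * ip x y
    · have a2 := hf x hx y hy hp
      rw [abs_of_pos hp] at a0
      have a3 : (0 : ℝ) ≤ n := Nat.cast_nonneg _
      nlinarith
    · rw [abs_of_nonpos (not_lt.1 hp)] at a0
      have a2 := hf0 x y
      have a3 : (0 : ℝ) ≤ 2 * n * f x y := by positivity
      linarith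
  simp only [sum_add_distrib, ← mul_sum] at h3
  have h4 : -(h * (A.card * B.card : ℝ)) ≤ s * ∑ x ∈ A, ∑ y ∈ B, ip x y := by
    rw [abs_le] at h1
    rcases hs1 with h | h <;> rw [h] <;> linarith [h1.1, h1.2]
  have h5 : (0 : ℝ) ≤ A.card * B.card := by positivity
  nlinarith

end Pool.Agent.P.MP_a54059_lc.EQ
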