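import Pool.Agent.P.MP_a54059_lc.EQ.Main
import Pool.Agent.P.MP_a54059_lc.EQ.Maj

/-!
The finite lower bound and the choice of parameters.
-/

namespace Pool.Agent.P.MP_a54059_lc.EQ

open Finset

theorem finite_bound {n : ℕ} {V : Type} {K : ℕ} (α β : Fin K → (Fin n → Bool) → V)
    (b : Fin K → Bool) (d : Bool)
    (h1 : ∀ x y j, α j x = β j y → (∀ i < j, α i x ≠ β i y) →
      (b j = true ↔ n < 2 * hammingDist x y))
    (h2 : ∀ x y, (∀ i, α i x ≠ β i y) → (d = true ↔ n < 2 * hammingDist x y))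
    (e g k T : ℕ) (he : n < 2 ^ e) (hg : 0 < g) (hK : K ≤ 2 ^ k) (hKT : K < g ^ T)
    (hn : 640 * ((k + 1) * ((g * (k + 1) + 5) *
      ((50 * (k + 1) + e) * (2 * k + 3) ^ T) ^ 2)) ^ 3 ≤ n) : False := by
  classical
  set hA : (Fin n → Bool) → Finset (Fin K × Finset (Fin n → Bool)) :=
    fun x => univ.image (fun i => (i, univ.filter (fun x' => α i x' = α i x))) with hhA
  set hB : (Fin n → Bool) → Finset (Fin K × Finset (Fin n → Bool)) :=
    fun y => univ.image (fun i => (i, univ.filter (fun x' => α i x' = β i y))) with hhB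
  have m1 : ∀ x y c, c ∈ hA x → c ∈ hB y → α c.1 x = β c.1 y := by
    intro x y c a1 a2
    obtain ⟨i, -, rfl⟩ := mem_image.1 a1
    obtain ⟨i', -, a3⟩ := mem_image.1 a2
    rw [Prod.mk.injEq] at a3
    obtain ⟨rfl, a4⟩ := a3
    have : x ∈ univ.filter (fun x' => α i' x' = β i' y) := by
      rw [a4]; exact mem_filter.2 ⟨mem_univ _, rfl⟩
    exact (mem_filter.1 this).2
  have m2 : ∀ x y i, α i x = β i y → ∃ c, c ∈ hA x ∧ c ∈ hB y ∧ c.1 = i := by
    intro x y i h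
    refine ⟨(i, univ.filter (fun x' => α i x' = α i x)), mem_image.2 ⟨i, mem_univ _, rfl⟩,
      mem_image.2 ⟨i, mem_univ _, by rw [h]⟩, rfl⟩
  obtain ⟨A, -, B, -, j, hI, hs, ht⟩ := structure_thm hA hB (fun c => (c.1 : ℕ)) K e g k T hg hK
    hKT (fun x => card_image_le.trans (by simp)) (fun y => card_image_le.trans (by simp))
    univ univ univ_nonempty univ_nonempty
  set h := (k + 1) * ((g * (k + 1) + 5) * ((50 * (k + 1) + e) * (2 * k + 3) ^ T) ^ 2) with hh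
  have hh1 : 1 ≤ h := Nat.pos_of_ne_zero (by rw [hh]; positivity)
  obtain ⟨hA0, hB0⟩ := nonempty_of_prod univ_nonempty univ_nonempty (by positivity) hs
  have hAp : (0 : ℝ) < A.card := by exact_mod_cast hA0.card_pos
  have hBp : (0 : ℝ) < B.card := by exact_mod_cast hB0.card_pos
  have hs' : (4 : ℝ) ^ n ≤ 2 ^ h * (A.card * B.card) := by
    have a1 := mul_le_mul_of_nonneg_left hs (show (0 : ℝ) ≤ 2 ^ h by positivity)
    have a2 : (2 : ℝ) ^ h * (1 / 2) ^ h = 1 := by rw [← mul_pow]; norm_num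
    have a3 : (2 : ℝ) ^ n * 2 ^ n = 4 ^ n := by rw [← mul_pow]; norm_num
    rw [← mul_assoc, a2, one_mul] at a1
    simp only [card_univ, Fintype.card_fun, Fintype.card_bool, Fintype.card_fin] at a1
    push_cast at a1
    linarith
  obtain ⟨o, ho⟩ : ∃ o : Bool, ∀ x ∈ A, ∀ y ∈ B, (∀ i : Fin K, (i : ℕ) < j → α i x ≠ β i y) →
      (o = true ↔ n < 2 * hammingDist x y) := by
    rcases hI with hj | ⟨c, c1, c2, c3⟩
    · exact ⟨d, fun x _ y _ hi => h2 x y fun i => hi i (by rw [hj]; exact i.2)⟩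
    · refine ⟨b c.1, fun x hx y hy hi => h1 x y c.1 (m1 x y c (c2 x hx) (c3 y hy)) ?_⟩
      intro i hlt
      exact hi i (by rw [← c1]; exact hlt)
  have key := both_signs hh1 hn A B hA0 hB0 hs' (if o then 1 else -1) (by cases o <;> simp)
    (cnt hA hB (fun c => (c.1 : ℕ) < j)) (cnt_nonneg _ _ _) (by
      intro x hx y hy hp
      by_contra hcon
      have hi : ∀ i : Fin K, (i : ℕ) < j → α i x ≠ β i y := by
        intro i hij hxy
        obtain ⟨c, a1, a2, a3⟩ := m2 x y i hxy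
        exact hcon (one_le_cnt a1 a2 (by rw [a3]; exact hij))
      have hq := ho x hx y hy hi
      rw [ip_eq] at hp
      cases o
      · have : ¬ n < 2 * hammingDist x y := fun h => by simpa using hq.2 h
        have a1 : (2 * hammingDist x y : ℝ) ≤ n := by exact_mod_cast not_lt.1 this
        simp only [Bool.false_eq_true, if_false] at hp
        linarith
      · have a1 : (n : ℝ) < 2 * hammingDist x y := by exact_mod_cast hq.1 rfl
        simp only [if_true] at hp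
        linarith)
  have he' : (n : ℝ) * (1 / 2) ^ e < 1 := by
    have a1 : (n : ℝ) < 2 ^ e := by exact_mod_cast he
    have a2 : (2 : ℝ) ^ e * (1 / 2) ^ e = 1 := by rw [← mul_pow]; norm_num
    have a3 := mul_lt_mul_of_pos_right a1 (show (0 : ℝ) < (1 / 2) ^ e by positivity)
    linarith
  have a3 := mul_le_mul_of_nonneg_left ht (Nat.cast_nonneg (α := ℝ) n)
  have a4 := mul_lt_mul_of_pos_right he' (show (0 : ℝ) < A.card * B.card by positivity)
  unfold tot at a3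
  linarith

theorem pow_big (μ : ℕ) (h : 20 ≤ μ) : 1000 * (μ + 1) ≤ 2 ^ μ := by
  induction μ, h using Nat.le_induction with
  | base => norm_num
  | succ m _ ih => rw [pow_succ]; omega

theorem params (l μ γ T k : ℕ) (h1 : 1000 * (μ + 1) ≤ l) (h2 : l ≤ 2 ^ (μ + 1)) (hμ : 1 ≤ μ)
    (hγ : 12 * γ ≤ l) (hT : 100 * (μ * T) ≤ l) (hk : k + 1 = γ * T) :
    640 * ((k + 1) * ((2 ^ γ * (k + 1) + 5) *
      ((50 * (k + 1) + (l + 1)) * (2 * k + 3) ^ T) ^ 2)) ^ 3 ≤ 2 ^ l := by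
  have hT' : 100 * T ≤ l := le_trans (by nlinarith) hT
  have a0 : 1200 * (k + 1) ≤ l * l := by
    rw [hk]
    calc 1200 * (γ * T) = (12 * γ) * (100 * T) := by ring
      _ ≤ l * l := Nat.mul_le_mul hγ hT'
  have a1 : l * l ≤ 2 ^ (2 * μ + 2) := by
    calc l * l ≤ 2 ^ (μ + 1) * 2 ^ (μ + 1) := Nat.mul_le_mul h2 h2
      _ = _ := by rw [← pow_add]; congr 1; ring
  have a2 : 2 * (l + 1) ≤ l * l := by nlinarith
  have b1 : k + 1 ≤ 2 ^ (2 * μ + 2) := by omega
  have b2 : 2 * k + 3 ≤ 2 ^ (2 * μ + 2) := by omega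
  have b3 : 50 * (k + 1) + (l + 1) ≤ 2 ^ (2 * μ + 2) := by omega
  have b4 : (2 * k + 3) ^ T ≤ 2 ^ (4 * (μ * T)) := by
    calc _ ≤ (2 ^ (2 * μ + 2)) ^ T := Nat.pow_le_pow_left b2 _
      _ = 2 ^ ((2 * μ + 2) * T) := by rw [← pow_mul]
      _ ≤ _ := Nat.pow_le_pow_right (by norm_num) (by nlinarith)
  have b5 : 2 ^ γ * (k + 1) + 5 ≤ 2 ^ (γ + (2 * μ + 2) + 3) := by
    have c1 : 2 ^ γ * (k + 1) ≤ 2 ^ (γ + (2 * μ + 2)) := by
      rw [pow_add]; exact Nat.mul_le_mul_left _ b1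
    have c2 : 0 < 2 ^ (γ + (2 * μ + 2)) := Nat.two_pow_pos _
    rw [pow_add _ _ 3]
    omega
  calc _ ≤ 2 ^ 10 * (2 ^ (2 * μ + 2) * (2 ^ (γ + (2 * μ + 2) + 3) *
        (2 ^ (2 * μ + 2) * 2 ^ (4 * (μ * T))) ^ 2)) ^ 3 := by
        gcongr
        norm_num
    _ = 2 ^ (10 + 3 * ((2 * μ + 2) + ((γ + (2 * μ + 2) + 3) +
        2 * ((2 * μ + 2) + 4 * (μ * T))))) := by
        simp only [← pow_add, ← pow_mul]
        congr 1
        ring
    _ ≤ _ := Nat.pow_le_pow_right (by norm_num) (by omega)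

theorem rpow_bound (n l μ k : ℕ) (h1 : 2 ^ l ≤ n) (h2 : n < 2 ^ (l + 1)) (h3 : 2 ^ μ ≤ l)
    (hμ : 20 ≤ μ) (hk : l * l ≤ 9600 * (μ * k)) :
    (n : ℝ) ^ (1 / 160000 * Real.log n / Real.log (Real.log n)) ≤ 2 ^ k := by
  have hl1 : 1 ≤ l := le_trans Nat.one_le_two_pow h3
  have hl : (1 : ℝ) ≤ l := by exact_mod_cast hl1
  have hn0 : (0 : ℝ) < n := by exact_mod_cast lt_of_lt_of_le (Nat.two_pow_pos l) h1
  have l2a := Real.log_two_gt_d9
  have l2b := Real.log_two_lt_d9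
  have hμ' : (20 : ℝ) ≤ μ := by exact_mod_cast hμ
  have a1 : Real.log n ≤ 2 * l := by
    have b1 : (n : ℝ) ≤ 2 ^ (l + 1) := by exact_mod_cast h2.le
    have b2 := Real.log_le_log hn0 b1
    rw [Real.log_pow] at b2
    push_cast at b2
    nlinarith
  have a2 : (2 : ℝ) ^ μ / 2 ≤ Real.log n := by
    have b1 : (2 : ℝ) ^ l ≤ n := by exact_mod_cast h1
    have b2 := Real.log_le_log (by positivity) b1
    rw [Real.log_pow] at b2
    have b3 : (2 : ℝ) ^ μ ≤ l := by exact_mod_cast h3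
    nlinarith
  have a0 : 0 ≤ Real.log n := le_trans (by positivity) a2
  have a3 : (μ : ℝ) / 2 ≤ Real.log (Real.log n) := by
    have b2 := Real.log_le_log (by positivity) a2
    rw [Real.log_div (by positivity) (by norm_num), Real.log_pow] at b2
    nlinarith
  have a4 : (l : ℝ) * l ≤ 9600 * (μ * k) := by exact_mod_cast hk
  have hk0 : (0 : ℝ) ≤ k := Nat.cast_nonneg _
  rw [Real.rpow_def_of_pos hn0]
  have a5 : (2 : ℝ) ^ k = Real.exp (k * Real.log 2) := by
    rw [Real.exp_nat_mul, Real.exp_log (by norm_num)]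
  rw [a5]
  apply Real.exp_le_exp.2
  rw [← mul_div_assoc, div_le_iff₀ (by linarith)]
  have a6 : Real.log n * Real.log n ≤ (2 * l) * (2 * l) := mul_le_mul a1 a1 a0 (by positivity)
  have a7 : (k : ℝ) * (1 / 2) * (μ / 2) ≤ k * Real.log 2 * Real.log (Real.log n) :=
    mul_le_mul (mul_le_mul_of_nonneg_left (by linarith) hk0) a3 (by positivity) (by positivity)
  have a8 : (0 : ℝ) ≤ μ * k := by positivity
  nlinarith

end Pool.Agent.P.MP_a54059_lc.EQ
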