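import Pool.Agent.P.MP_a54059_lc.EQ.Cases

/-!
The search for a large rectangle on which the first collision is almost constant.
-/

namespace Pool.Agent.P.MP_a54059_lc.EQ

open Finset

variable {X Y C : Type*} [Fintype C] [DecidableEq C]

/-- The rectangle lies in a cell of rank `j`, or `j` is the end marker. -/
def InCell (hA : X → Finset C) (hB : Y → Finset C) (r : C → ℕ) (K : ℕ) (A : Finset X)
    (B : Finset Y) (j : ℕ) : Prop :=
  j = K ∨ ∃ c, r c = j ∧ (∀ x ∈ A, c ∈ hA x) ∧ ∀ y ∈ B, c ∈ hB y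

/-- A subrectangle of density at least `2 ^ (-d)` with few collisions before its own cell. -/
def Good (hA : X → Finset C) (hB : Y → Finset C) (r : C → ℕ) (K e : ℕ) (A : Finset X)
    (B : Finset Y) (d : ℕ) : Prop :=
  ∃ A' ⊆ A, ∃ B' ⊆ B, ∃ j, InCell hA hB r K A' B' j ∧
    (1 / 2 : ℝ) ^ d * (A.card * B.card) ≤ A'.card * B'.card ∧
    tot hA hB (fun c => r c < j) A' B' ≤ (1 / 2 : ℝ) ^ e * (A'.card * B'.card)

open Classical in
/-- The inductive claim. -/
def Claim (hA : X → Finset C) (hB : Y → Finset C) (r : C → ℕ) (K e L G a d : ℕ) : Prop :=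
  ∀ (A : Finset X) (B : Finset Y) (R : C → Prop) (lo hi : ℕ), hi < lo + 2 ^ L →
    A.Nonempty → B.Nonempty → InCell hA hB r K A B hi →
    (∀ x ∈ A, ((hA x).filter R).card < G) →
    tot hA hB (fun c => r c < hi ∧ (r c < lo ∨ ¬ R c)) A B ≤
      (1 / 2 : ℝ) ^ a * (A.card * B.card) →
    Good hA hB r K e A B d

theorem half_le {a b : ℕ} (h : a ≤ b) : (1 / 2 : ℝ) ^ b ≤ (1 / 2 : ℝ) ^ a :=
  pow_le_pow_of_le_one (by norm_num) (by norm_num) h

omit [Fintype C] [DecidableEq C] in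
theorem InCell.mono {hA : X → Finset C} {hB : Y → Finset C} {r : C → ℕ} {K : ℕ}
    {A A' : Finset X} {B B' : Finset Y} {j : ℕ} (h : InCell hA hB r K A B j) (h1 : A' ⊆ A)
    (h2 : B' ⊆ B) : InCell hA hB r K A' B' j := by
  rcases h with h | ⟨c, a1, a2, a3⟩
  · exact Or.inl h
  · exact Or.inr ⟨c, a1, fun x hx => a2 x (h1 hx), fun y hy => a3 y (h2 hy)⟩

theorem Good.lift {hA : X → Finset C} {hB : Y → Finset C} {r : C → ℕ} {K e : ℕ}
    {A A1 : Finset X} {B B1 : Finset Y} {d d1 d2 : ℕ} (h : Good hA hB r K e A1 B1 d2)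
    (h1 : A1 ⊆ A) (h2 : B1 ⊆ B)
    (h3 : (1 / 2 : ℝ) ^ d1 * (A.card * B.card) ≤ A1.card * B1.card) (hd : d1 + d2 ≤ d) :
    Good hA hB r K e A B d := by
  obtain ⟨A', a1, B', a2, j, a3, a4, a5⟩ := h
  refine ⟨A', a1.trans h1, B', a2.trans h2, j, a3, ?_, a5⟩
  calc _ ≤ (1 / 2 : ℝ) ^ (d1 + d2) * (A.card * B.card) :=
        mul_le_mul_of_nonneg_right (half_le hd) (by positivity)
    _ = (1 / 2 : ℝ) ^ d2 * ((1 / 2 : ℝ) ^ d1 * (A.card * B.card)) := by rw [pow_add]; ring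
    _ ≤ (1 / 2 : ℝ) ^ d2 * (A1.card * B1.card) := mul_le_mul_of_nonneg_left h3 (by positivity)
    _ ≤ _ := a4

theorem sizes {X Y : Type*} {A A' : Finset X} {B B' : Finset Y} {m : ℕ} (hA : A.Nonempty)
    (hB : B.Nonempty) (h1 : (1 / 2 : ℝ) ^ m * A.card ≤ A'.card)
    (h2 : (1 / 2 : ℝ) ^ m * B.card ≤ B'.card) :
    A'.Nonempty ∧ B'.Nonempty ∧
      (1 / 2 : ℝ) ^ (2 * m) * (A.card * B.card) ≤ A'.card * B'.card := by
  have hAp : (0 : ℝ) < A.card := by exact_mod_cast hA.card_pos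
  have hBp : (0 : ℝ) < B.card := by exact_mod_cast hB.card_pos
  have p1 : 0 < (1 / 2 : ℝ) ^ m * A.card := by positivity
  have p2 : 0 < (1 / 2 : ℝ) ^ m * B.card := by positivity
  refine ⟨?_, ?_, ?_⟩
  · rw [← card_pos]
    exact_mod_cast lt_of_lt_of_le p1 h1
  · rw [← card_pos]
    exact_mod_cast lt_of_lt_of_le p2 h2
  · calc _ = ((1 / 2 : ℝ) ^ m * A.card) * ((1 / 2 : ℝ) ^ m * B.card) := by
          rw [two_mul, pow_add]; ring
      _ ≤ _ := mul_le_mul h1 h2 p2.le (Nat.cast_nonneg _)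

theorem nonempty_of_prod {X Y : Type*} {A A' : Finset X} {B B' : Finset Y} {u : ℝ}
    (hA : A.Nonempty) (hB : B.Nonempty) (hu : 0 < u)
    (h : u * (A.card * B.card) ≤ A'.card * B'.card) : A'.Nonempty ∧ B'.Nonempty := by
  have hAp : (0 : ℝ) < A.card := by exact_mod_cast hA.card_pos
  have hBp : (0 : ℝ) < B.card := by exact_mod_cast hB.card_pos
  have p : (0 : ℝ) < A'.card * B'.card := lt_of_lt_of_le (by positivity) h
  constructor
  · rw [nonempty_iff_ne_empty]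
    rintro rfl
    simp at p
  · rw [nonempty_iff_ne_empty]
    rintro rfl
    simp at p

open Classical in
theorem rounds (hA : X → Finset C) (hB : Y → Finset C) (r : C → ℕ) (K e L g G k κ a0 a1 d : ℕ)
    (hg : 0 < g) (hG : 0 < G)
    (hkA : ∀ x, (hA x).card ≤ 2 ^ k) (hkB : ∀ y, (hB y).card ≤ 2 ^ k)
    (c1 : Claim hA hB r K e L (g * G) a1 d) (c0 : Claim hA hB r K e L G a0 d)
    (R : C → Prop) (lo hi : ℕ) (hhi : hi < lo + 2 ^ (L + 1)) (ρ : ℕ) :
    ∀ (A : Finset X) (B : Finset Y), A.Nonempty → B.Nonempty → InCell hA hB r K A B hi →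
    (∀ x ∈ A, ((hA x).filter R).card < g * G) →
    tot hA hB (fun c => r c < hi ∧ (r c < lo ∨ ¬ R c)) A B ≤
      (1 / 2 : ℝ) ^ (a1 + a0 + κ + 3 * k + 9 + 4 * ρ) * (A.card * B.card) →
    tot hA hB (fun c => R c ∧ lo ≤ r c ∧ r c < min hi (lo + 2 ^ L)) A B ≤
      2 ^ (κ * ρ) * (1 / 2 : ℝ) ^ (a1 + 1) * (A.card * B.card) →
    Good hA hB r K e A B (d + 2 * (a1 + a0 + κ + 3 * k + 10) +
      ρ * ((κ + a0 + 3 * k + 8) * (g * (k + 1)) + 3)) := by
  set mid := min hi (lo + 2 ^ L) with hmid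
  set Pre : C → Prop := fun c => R c ∧ lo ≤ r c ∧ r c < mid with hPre
  set F : C → Prop := fun c => r c < hi ∧ (r c < lo ∨ ¬ R c) with hFd
  have hKA : ∀ x, ((hA x).card : ℝ) ≤ 2 ^ k := fun x => by exact_mod_cast hkA x
  have hKB : ∀ y, ((hB y).card : ℝ) ≤ 2 ^ k := fun y => by exact_mod_cast hkB y
  have caseN : ∀ (A : Finset X) (B : Finset Y), A.Nonempty → B.Nonempty →
      InCell hA hB r K A B hi → (∀ x ∈ A, ((hA x).filter R).card < g * G) →
      tot hA hB F A B ≤ (1 / 2 : ℝ) ^ (a1 + 1) * (A.card * B.card) →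
      tot hA hB Pre A B ≤ (1 / 2 : ℝ) ^ (a1 + 1) * (A.card * B.card) →
      Good hA hB r K e A B d := by
    intro A B hA0 hB0 hI hR hF hP
    apply c1 A B R (lo + 2 ^ L) hi (by rw [pow_succ] at hhi; omega) hA0 hB0 hI hR
    have := tot_le_add hA hB (Φ := fun c => r c < hi ∧ (r c < lo + 2 ^ L ∨ ¬ R c))
      (Ψ := F) (Θ := Pre) A B (by
        intro c hc
        by_cases h1 : R c
        · by_cases h2 : r c < lo
          · exact Or.inl ⟨hc.1, Or.inl h2⟩
          · right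
            refine ⟨h1, not_lt.1 h2, ?_⟩
            rcases hc.2 with h | h
            · exact lt_min hc.1 h
            · exact absurd h1 h
        · exact Or.inl ⟨hc.1, Or.inr h1⟩)
    rw [pow_succ] at hF hP
    linarith
  induction ρ with
  | zero =>
    intro A B hA0 hB0 hI hR hF hP
    have hAB : (0 : ℝ) ≤ A.card * B.card := by positivity
    refine (caseN A B hA0 hB0 hI hR (hF.trans (mul_le_mul_of_nonneg_right (half_le (by omega))
      hAB)) (by simpa using hP)).lift (d1 := 0) subset_rfl subset_rfl (by simp) (by omega)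
  | succ ρ ih =>
    intro A B hA0 hB0 hI hR hF hP
    have hAB : (0 : ℝ) ≤ A.card * B.card := by positivity
    by_cases hN : tot hA hB Pre A B ≤ (1 / 2 : ℝ) ^ (a1 + 1) * (A.card * B.card)
    · exact (caseN A B hA0 hB0 hI hR (hF.trans (mul_le_mul_of_nonneg_right (half_le (by omega))
        hAB)) hN).lift (d1 := 0) subset_rfl subset_rfl (by simp) (by omega)
    have hFU : tot hA hB F A B ≤
        (1 / 2 : ℝ) ^ (a1 + a0 + κ + 3 * k + 9) * (A.card * B.card) :=
      hF.trans (mul_le_mul_of_nonneg_right (half_le (by omega)) hAB)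
    by_cases hY : (1 / 2 : ℝ) ^ (κ + a0 + 2 * k + 8) * (A.card * B.card) ≤ tot hA hB Pre A B
    · obtain ⟨c, hc, h1, h2, h3⟩ := caseY hA hB Pre F A B (2 ^ k) _ _ hA0 hB0 (by positivity)
        (by positivity) (by positivity) (fun x _ => hKA x) (fun y _ => hKB y) hY hFU
      have q1 : (1 / 2 : ℝ) ^ (κ + a0 + 2 * k + 8) / (4 * 2 ^ k) =
          (1 / 2 : ℝ) ^ (κ + a0 + 3 * k + 10) := by
        simp only [one_div, inv_pow]
        field_simp
        ring
      have q2 : 2 * ((2 : ℝ) ^ k * (1 / 2 : ℝ) ^ (a1 + a0 + κ + 3 * k + 9) /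
          (1 / 2 : ℝ) ^ (κ + a0 + 2 * k + 8)) = (1 / 2 : ℝ) ^ a1 := by
        simp only [one_div, inv_pow]
        field_simp
        ring
      rw [q1] at h1 h2
      rw [q2] at h3
      obtain ⟨s1, s2, s3⟩ := sizes hA0 hB0 h1 h2
      have hcm : r c < mid := hc.2.2
      refine (c1 (fa hA A c) (fa hB B c) R lo (r c) (lt_of_lt_of_le hcm (min_le_right _ _)) s1 s2
        (Or.inr ⟨c, rfl, fun x hx => (mem_fa.1 hx).2, fun y hy => (mem_fa.1 hy).2⟩)
        (fun x hx => hR x (fa_subset _ _ _ hx)) (le_trans (tot_mono _ _ _ _ ?_) h3)).lift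
        (fa_subset _ _ _) (fa_subset _ _ _) s3 (by omega)
      intro c' hc'
      exact ⟨lt_trans hc'.1 (lt_of_lt_of_le hcm (min_le_left _ _)), hc'.2⟩
    by_cases hW : (1 / 2 : ℝ) ^ (κ + 4) * tot hA hB Pre A B ≤
        tot (lowc hA (Desc hA hB r R lo ((1 / 2 : ℝ) ^ (κ + a0 + k + 7)) A B) G) hB Pre A B
    · have hW1 : (1 / 2 : ℝ) ^ (κ + a1 + 5) * (A.card * B.card) ≤
          tot (lowc hA (Desc hA hB r R lo ((1 / 2 : ℝ) ^ (κ + a0 + k + 7)) A B) G) hB Pre A B := by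
        refine le_trans ?_ hW
        calc _ = (1 / 2 : ℝ) ^ (κ + 4) * ((1 / 2 : ℝ) ^ (a1 + 1) * (A.card * B.card)) := by
              simp only [pow_add]
              ring
          _ ≤ _ := mul_le_mul_of_nonneg_left (not_le.1 hN).le (by positivity)
      obtain ⟨c, -, hcm, A', hA', B', hB', R', i1, i2, h1, h2, h4, h3⟩ :=
        caseB hA hB r R lo mid hi G (min_le_left _ _) A B (2 ^ k) _ _ _ _ hA0 hB0 (by positivity)
        (by positivity) (by positivity) (by positivity) (by positivity)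
        (fun x _ => hKA x) (fun y _ => hKB y) hW1 hW hFU
      have q1 : (1 / 2 : ℝ) ^ (κ + a1 + 5) / (4 * 2 ^ k) =
          (1 / 2 : ℝ) ^ (κ + a1 + k + 7) := by
        simp only [one_div, inv_pow]
        field_simp
        ring
      have q2 : (2 : ℝ) ^ k * (1 / 2 : ℝ) ^ (a1 + a0 + κ + 3 * k + 9) /
          (1 / 2 : ℝ) ^ (κ + a1 + 5) = (1 / 2 : ℝ) ^ (a0 + 2 * k + 4) := by
        simp only [one_div, inv_pow]
        field_simp
        ring
      have q3 : 2 * (2 : ℝ) ^ k * (1 / 2 : ℝ) ^ (κ + a0 + k + 7) /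
          (1 / 2 : ℝ) ^ (κ + 4) = (1 / 2 : ℝ) ^ (a0 + 2) := by
        simp only [one_div, inv_pow]
        field_simp
        ring
      have q4 : 2 * ((1 / 2 : ℝ) ^ (a0 + 2 * k + 4) + (1 / 2 : ℝ) ^ (a0 + 2)) ≤
          (1 / 2 : ℝ) ^ a0 := by
        have b1 : (1 / 2 : ℝ) ^ (a0 + 2 * k + 4) ≤ (1 / 2 : ℝ) ^ (a0 + 2) := half_le (by omega)
        have b2 : (1 / 2 : ℝ) ^ (a0 + 2) = (1 / 2 : ℝ) ^ a0 / 4 := by rw [pow_add]; ring
        linarith
      rw [q1] at h1 h2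
      rw [q2, q3] at h3
      obtain ⟨s1, s2, s3⟩ := sizes hA0 hB0 h1 h2
      exact (c0 A' B' R' lo (r c) (lt_of_lt_of_le hcm (min_le_right _ _)) s1 s2
        (Or.inr ⟨c, rfl, i1, i2⟩) h4
        (h3.trans (mul_le_mul_of_nonneg_right q4 (by positivity)))).lift hA' hB' s3 (by omega)
    have q0 : (1 / 2 : ℝ) ^ (κ + a0 + 2 * k + 8) =
        (1 / 2 : ℝ) ^ (κ + a0 + k + 7) / (2 * 2 ^ k) := by
      simp only [one_div, inv_pow]
      field_simp
      ring
    obtain ⟨A', hA', B', hB', h1, h2, h3⟩ := caseC hA hB r R F lo mid G g k hg hG A B (2 ^ k)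
      ((1 / 2 : ℝ) ^ (κ + a0 + k + 7))
      ((1 / 2 : ℝ) ^ (κ + 4) * (2 ^ (κ * (ρ + 1)) * (1 / 2 : ℝ) ^ (a1 + 1)))
      ((1 / 2 : ℝ) ^ (a1 + a0 + κ + 3 * k + 9 + 4 * (ρ + 1))) hA0 hB0
      (one_le_pow₀ (by norm_num)) (by positivity) (pow_le_one₀ (by norm_num) (by norm_num))
      (by positivity) (by positivity) (fun x _ => hkA x) (fun y _ => hKB y)
      (fun x hx => (hR x hx).le) (by rw [← q0]; exact (not_le.1 hY).le)
      (by
        refine (not_le.1 hW).le.trans ?_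
        rw [mul_assoc]
        exact mul_le_mul_of_nonneg_left hP (by positivity)) hF
    have q1 : ((1 / 2 : ℝ) ^ (κ + a0 + k + 7) / (2 * (2 ^ k) ^ 2)) ^ (g * (k + 1)) / 8 =
        (1 / 2 : ℝ) ^ ((κ + a0 + 3 * k + 8) * (g * (k + 1)) + 3) := by
      have : (1 / 2 : ℝ) ^ (κ + a0 + k + 7) / (2 * (2 ^ k) ^ 2) =
          (1 / 2 : ℝ) ^ (κ + a0 + 3 * k + 8) := by
        simp only [one_div, inv_pow]
        field_simp
        ring
      rw [this, ← pow_mul, pow_add]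
      ring
    have q2 : 16 * ((1 / 2 : ℝ) ^ (κ + 4) * (2 ^ (κ * (ρ + 1)) * (1 / 2 : ℝ) ^ (a1 + 1))) =
        2 ^ (κ * ρ) * (1 / 2 : ℝ) ^ (a1 + 1) := by
      simp only [one_div, inv_pow]
      field_simp
      ring
    have q3 : 16 * (1 / 2 : ℝ) ^ (a1 + a0 + κ + 3 * k + 9 + 4 * (ρ + 1)) =
        (1 / 2 : ℝ) ^ (a1 + a0 + κ + 3 * k + 9 + 4 * ρ) := by
      simp only [one_div, inv_pow]
      field_simp
      ring
    rw [q1] at h1
    rw [q2] at h2
    rw [q3] at h3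
    obtain ⟨s1, s2⟩ := nonempty_of_prod hA0 hB0 (by positivity) h1
    refine (ih A' B' s1 s2 (hI.mono hA' hB') (fun x hx => hR x (hA' hx)) h3 h2).lift hA' hB' h1
      (le_of_eq (by ring))

theorem claim_zero_left (hA : X → Finset C) (hB : Y → Finset C) (r : C → ℕ) (K e G a : ℕ)
    (h : e ≤ a) : Claim hA hB r K e 0 G a 0 := by
  intro A B R lo hi hhi _ _ hI _ hF
  refine ⟨A, subset_rfl, B, subset_rfl, hi, hI, by simp, ?_⟩
  refine le_trans (tot_mono _ _ _ _ ?_) (hF.trans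
    (mul_le_mul_of_nonneg_right (half_le h) (by positivity)))
  intro c hc
  exact ⟨hc, Or.inl (by simp at hhi; omega)⟩

open Classical in
theorem claim_one (hA : X → Finset C) (hB : Y → Finset C) (r : C → ℕ) (K e L a d : ℕ)
    (h : e ≤ a) : Claim hA hB r K e L 1 a d := by
  intro A B R lo hi _ _ _ hI hR hF
  refine ⟨A, subset_rfl, B, subset_rfl, hi, hI, ?_, ?_⟩
  · have : (1 / 2 : ℝ) ^ d ≤ 1 := pow_le_one₀ (by norm_num) (by norm_num)
    have h2 : (0 : ℝ) ≤ A.card * B.card := by positivity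
    nlinarith
  refine le_trans ?_ (hF.trans (mul_le_mul_of_nonneg_right (half_le h) (by positivity)))
  apply sum_le_sum
  intro x hx
  apply sum_le_sum
  intro y _
  apply cnt_mono
  intro c h1 _ h3
  refine ⟨h1, h3, Or.inr fun hc => ?_⟩
  have h4 : 0 < ((hA x).filter R).card := card_pos.2 ⟨c, mem_filter.2 ⟨h1, hc⟩⟩
  have := hR x hx
  omega

theorem numeric (k L t E : ℕ) (hL : L ≤ k) (hE : 50 * (k + 1) ≤ E) :
    E * (2 * L + 1) ^ (t + 1) + E * (2 * L + 1) ^ t + 8 * (2 * k + 1) + 3 * k + 9 +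
      4 * ((E * (2 * L + 1) ^ (t + 1) + 1 + k) / (8 * (2 * k + 1)) + 1) ≤
      E * (2 * (L + 1) + 1) ^ (t + 1) := by
  set a0 := E * (2 * L + 1) ^ t with ha0
  have h1 : E * (2 * L + 1) ^ (t + 1) = a0 * (2 * L + 1) := by rw [ha0]; ring
  have h2 : a0 * (2 * L + 3) ≤ E * (2 * (L + 1) + 1) ^ (t + 1) := by
    have : (2 * L + 1) ^ t ≤ (2 * (L + 1) + 1) ^ t := Nat.pow_le_pow_left (by omega) _
    calc _ = E * (2 * L + 1) ^ t * (2 * (L + 1) + 1) := by rw [ha0]; ring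
      _ ≤ E * (2 * (L + 1) + 1) ^ t * (2 * (L + 1) + 1) :=
          Nat.mul_le_mul_right _ (Nat.mul_le_mul_left _ this)
      _ = _ := by ring
  have h3 : E ≤ a0 := Nat.le_mul_of_pos_right _ (by positivity)
  rw [h1]
  set q := (a0 * (2 * L + 1) + 1 + k) / (8 * (2 * k + 1)) with hq
  have h4 : q * (8 * (2 * k + 1)) ≤ a0 * (2 * L + 1) + 1 + k := Nat.div_mul_le_self _ _
  have h5 : a0 * (2 * L + 1) ≤ a0 * (2 * k + 1) := Nat.mul_le_mul_left _ (by omega)
  have h6 : (8 * q) * (2 * k + 1) ≤ (a0 + 1) * (2 * k + 1) := by nlinarith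
  have h7 : 8 * q ≤ a0 + 1 := Nat.le_of_mul_le_mul_right h6 (by omega)
  have h8 : a0 * (2 * L + 3) = a0 * (2 * L + 1) + 2 * a0 := by ring
  omega

open Classical in
theorem claim_all (hA : X → Finset C) (hB : Y → Finset C) (r : C → ℕ) (K e g k T E : ℕ)
    (hg : 0 < g) (hkA : ∀ x, (hA x).card ≤ 2 ^ k) (hkB : ∀ y, (hB y).card ≤ 2 ^ k)
    (hE : 50 * (k + 1) ≤ E) (he : e ≤ E) (L : ℕ) (hL : L ≤ k + 1) :
    ∀ t ≤ T, Claim hA hB r K e L (g ^ t) (E * (2 * L + 1) ^ t)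
      (L * ((g * (k + 1) + 5) * (E * (2 * k + 3) ^ T) ^ 2)) := by
  induction L with
  | zero =>
    intro t _
    rw [zero_mul]
    exact claim_zero_left hA hB r K e _ _ (by simpa using he)
  | succ L ih =>
    intro t ht
    rcases t with _ | t
    · rw [pow_zero]
      exact claim_one hA hB r K e _ _ _ (by simpa using he)
    have c1 := ih (by omega) (t + 1) ht
    have c0 := ih (by omega) t (by omega)
    rw [pow_succ' g t] at c1 ⊢
    intro A B R lo hi hhi hA0 hB0 hI hR hF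
    have hn := numeric k L t E (by omega) hE
    set a1 := E * (2 * L + 1) ^ (t + 1) with ha1
    set a0 := E * (2 * L + 1) ^ t with ha0
    set ρ := (a1 + 1 + k) / (8 * (2 * k + 1)) + 1 with hρ
    set am := E * (2 * k + 3) ^ T with ham
    have hAB : (0 : ℝ) ≤ A.card * B.card := by positivity
    have h1 : a1 + 1 + k ≤ 8 * (2 * k + 1) * ρ :=
      (Nat.lt_mul_div_succ _ (by omega)).le
    have h2 : E * (2 * (L + 1) + 1) ^ (t + 1) ≤ am :=
      Nat.mul_le_mul_left _ ((Nat.pow_le_pow_left (by omega) _).trans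
        (Nat.pow_le_pow_right (by omega) ht))
    refine (rounds hA hB r K e L g (g ^ t) k (8 * (2 * k + 1)) a0 a1 _ hg (by positivity) hkA hkB
      c1 c0 R lo hi hhi ρ A B hA0 hB0 hI hR
      (hF.trans (mul_le_mul_of_nonneg_right (half_le hn) hAB)) ?_).lift (d1 := 0)
      subset_rfl subset_rfl (by simp) ?_
    · refine (tot_le hA hB _ A B (2 ^ k) (fun y _ => by exact_mod_cast hkB y)).trans
        (mul_le_mul_of_nonneg_right ?_ hAB)
      obtain ⟨m, hm⟩ := Nat.exists_eq_add_of_le h1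
      rw [hm]
      have : (2 : ℝ) ^ (a1 + 1 + k + m) * (1 / 2 : ℝ) ^ (a1 + 1) = 2 ^ k * 2 ^ m := by
        simp only [one_div, inv_pow]
        field_simp
        ring
      rw [this]
      have h3 : (1 : ℝ) ≤ 2 ^ m := one_le_pow₀ (by norm_num)
      have h4 : (0 : ℝ) < 2 ^ k := by positivity
      nlinarith
    · have b0 : 1 ≤ ρ := Nat.le_add_left 1 _
      clear_value ρ
      have b1 : ρ ≤ am := by omega
      have b2 : 8 * (2 * k + 1) + a0 + 3 * k + 8 ≤ am := by omega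
      have b3 : a1 + a0 + 8 * (2 * k + 1) + 3 * k + 10 ≤ am := by omega
      have b4 : ρ * ((8 * (2 * k + 1) + a0 + 3 * k + 8) * (g * (k + 1)) + 3) ≤
          am * (am * (g * (k + 1)) + 3) :=
        Nat.mul_le_mul b1 (Nat.add_le_add_right (Nat.mul_le_mul_right _ b2) 3)
      have b5 : am ≤ am ^ 2 := Nat.le_self_pow (by norm_num) _
      have b6 : (L + 1) * ((g * (k + 1) + 5) * am ^ 2) =
          L * ((g * (k + 1) + 5) * am ^ 2) + am * (am * (g * (k + 1))) + 5 * am ^ 2 := by ring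
      have b7 : am * (am * (g * (k + 1)) + 3) = am * (am * (g * (k + 1))) + 3 * am := by ring
      omega

/-- Structure theorem: a large rectangle on which the first collision is almost constant. -/
theorem structure_thm (hA : X → Finset C) (hB : Y → Finset C) (r : C → ℕ) (K e g k T : ℕ)
    (hg : 0 < g) (hK : K ≤ 2 ^ k) (hKT : K < g ^ T)
    (hkA : ∀ x, (hA x).card ≤ K) (hkB : ∀ y, (hB y).card ≤ K)
    (A : Finset X) (B : Finset Y) (hA0 : A.Nonempty) (hB0 : B.Nonempty) :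
    Good hA hB r K e A B
      ((k + 1) * ((g * (k + 1) + 5) * ((50 * (k + 1) + e) * (2 * k + 3) ^ T) ^ 2)) := by
  classical
  apply claim_all hA hB r K e g k T (50 * (k + 1) + e) hg (fun x => (hkA x).trans hK)
    (fun y => (hkB y).trans hK) (by omega) (by omega) (k + 1) le_rfl T le_rfl A B
    (fun _ => True) 0 K (by rw [pow_succ]; have := Nat.two_pow_pos k; omega) hA0 hB0
    (Or.inl rfl)
  · intro x _
    exact lt_of_le_of_lt (le_trans (card_le_card (fun c hc => by simpa using hc)) (hkA x)) hKT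
  · have : tot hA hB (fun c => r c < K ∧ (r c < 0 ∨ ¬ True)) A B = 0 := by
      unfold tot cnt
      simp
    rw [this]
    positivity

end Pool.Agent.P.MP_a54059_lc.EQ
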